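import Pool.Agent.Lib.MP_f4a4e4_co.NGX.Graph

/-!
# NGP / Bic: from points to a complete bipartite subgraph, with one more vertex at infinity

A copy of NG5/Bic for every even degree. Choose `t` in `K` outside `A`, `B` and all `(x+y)/2`, `x ∈ A`, `y ∈ B` (if `2 = 0` in `K` the last condition `x + y ≠ 2 t` is automatic: `x ≠ -y = y`): possible by `hcard`. Vertices: `x ∈ A`: `((x-t)⁻¹, ν/N(x-t))`; `y ∈ B`: `(-(y-t)⁻¹, μ y/N(y-t))`; infinity: `(0, 1/ν)`.
`(x-t)⁻¹ - (y-t)⁻¹ = (y-x)/((x-t)(y-t))` and `N(y - x) = N(x - y)` (`N(-1) = 1` in even degree, `Algebra.norm_algebraMap`, `hK`), so `N = ν μ y/(N(x-t) N(y-t))`; and `N((x-t)⁻¹ + 0) = 1/N(x-t) = (ν/N(x-t)) (1/ν)`. Different vertices: `(x-t)⁻¹ ≠ -(y-t)⁻¹` by the choice of `t`; injective on each side; `0` is not an inverse. Index `A` and `B` by `Fin` with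
`A.equivFin` / `Finset.equivFin`, the side `Fin (B.card + 1)` by `Fin.cons`.
-/

set_option autoImplicit false

namespace Pool.Agent.Lib.NGP

open SimpleGraph Pool.Agent.Lib.MP_f4a4e4_co.NGX

/-- a suitable translation -/
private theorem exists_shift5 {K : Type} [Field K] [Finite K] (A B : Finset K) (hAB : ∀ x ∈ A, ∀ y ∈ B, x ≠ y)
    (hcard : A.card + B.card + A.card * B.card < Nat.card K) :
    ∃ t : K, t ∉ A ∧ t ∉ B ∧ ∀ x ∈ A, ∀ y ∈ B, x - t ≠ -(y - t) := by
  classical
  have := Fintype.ofFinite K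
  rw [Nat.card_eq_fintype_card] at hcard
  set S : Finset K := (A ∪ B) ∪ (A ×ˢ B).image fun p => (p.1 + p.2) / 2 with hS
  have hScard : S.card < Fintype.card K := by
    have h1 : S.card ≤ (A.card + B.card) + A.card * B.card := by
      refine (Finset.card_union_le _ _).trans (Nat.add_le_add (Finset.card_union_le _ _) ?_)
      refine Finset.card_image_le.trans ?_
      rw [Finset.card_product]
    omega
  obtain ⟨c, hc⟩ : ∃ c : K, c ∉ S := by
    by_contra hno
    push Not at hno
    have h1 : S = Finset.univ := Finset.eq_univ_iff_forall.2 hno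
    rw [h1, Finset.card_univ] at hScard
    exact lt_irrefl _ hScard
  refine ⟨c, ?_, ?_, ?_⟩
  · intro h
    exact hc (Finset.mem_union_left _ (Finset.mem_union_left _ h))
  · intro h
    exact hc (Finset.mem_union_left _ (Finset.mem_union_right _ h))
  · intro x hx y hy h
    have h1 : 2 * c = x + y := by linear_combination -h
    rcases eq_or_ne (2 : K) 0 with h2 | h2
    · rw [h2, zero_mul] at h1
      refine hAB x hx y hy ?_
      have h3 : x - y = 0 := by linear_combination -h1 - y * h2
      exact sub_eq_zero.1 h3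
    · refine hc (Finset.mem_union_right _ (Finset.mem_image.2 ⟨(x, y), Finset.mem_product.2 ⟨hx, hy⟩, ?_⟩))
      simp only
      rw [← h1]
      field_simp

theorem bic {F K : Type} [Field F] [Field K] [Finite K] [Algebra F K] (hK : Even (Module.finrank F K)) (A B : Finset K)
    (ν : F) (μ : K → F) (hν : ν ≠ 0) (hμ : ∀ y ∈ B, μ y ≠ 0) (hAB : ∀ x ∈ A, ∀ y ∈ B, x ≠ y)
    (h : ∀ x ∈ A, ∀ y ∈ B, Algebra.norm F (x - y) = ν * μ y) (hcard : A.card + B.card + A.card * B.card < Nat.card K) :
    completeBipartiteGraph (Fin A.card) (Fin (B.card + 1)) ⊑ NormGraph F K := by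
  classical
  obtain ⟨t, htA, htB, ht⟩ := exists_shift5 A B hAB hcard
  set u : Fin A.card → K := fun i => ((A.equivFin.symm i : A) : K) with hu
  set w : Fin B.card → K := fun j => ((B.equivFin.symm j : B) : K) with hw
  have huA : ∀ i, u i ∈ A := fun i => (A.equivFin.symm i).2
  have hwB : ∀ j, w j ∈ B := fun j => (B.equivFin.symm j).2
  have hui : Function.Injective u := fun i j h => A.equivFin.symm.injective (Subtype.ext h)
  have hwi : Function.Injective w := fun i j h => B.equivFin.symm.injective (Subtype.ext h)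
  have hut : ∀ i, u i - t ≠ 0 := fun i h => htA (sub_eq_zero.1 h ▸ huA i)
  have hwt : ∀ j, w j - t ≠ 0 := fun j h => htB (sub_eq_zero.1 h ▸ hwB j)
  -- the norm on units
  set n : Kˣ →* Fˣ := Units.map (Algebra.norm F) with hn
  set α : Fin A.card → Kˣ := fun i => Units.mk0 (u i - t) (hut i) with hα
  set β : Fin B.card → Kˣ := fun j => Units.mk0 (w j - t) (hwt j) with hβ
  set e : Fˣ := Units.mk0 ν hν with he
  set m : Fin B.card → Fˣ := fun j => Units.mk0 (μ (w j)) (hμ _ (hwB j)) with hm
  set f : Fin A.card ⊕ Fin (B.card + 1) → K × Fˣ := Sum.elim (fun i => ((α i : K)⁻¹, e * (n (α i))⁻¹))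
    (Fin.cons (0, e⁻¹) fun j => (-(β j : K)⁻¹, m j * (n (β j))⁻¹)) with hf
  have hl : ∀ i, f (Sum.inl i) = ((α i : K)⁻¹, e * (n (α i))⁻¹) := fun i => rfl
  have hr0 : f (Sum.inr 0) = (0, e⁻¹) := rfl
  have hr : ∀ j : Fin B.card, f (Sum.inr j.succ) = (-(β j : K)⁻¹, m j * (n (β j))⁻¹) := fun j => rfl
  have hne : ∀ i j, f (Sum.inl i) ≠ f (Sum.inr j) := by
    intro i j
    rw [hl]
    refine Fin.cases ?_ (fun j => ?_) j
    · rw [hr0]
      intro h
      exact inv_ne_zero (α i).ne_zero (Prod.ext_iff.1 h).1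
    · rw [hr]
      intro h
      have h1 : (α i : K)⁻¹ = -(β j : K)⁻¹ := (Prod.ext_iff.1 h).1
      have h2 : (α i : K) = -(β j : K) := by
        rw [← inv_neg] at h1
        exact inv_injective h1
      rw [hα, hβ] at h2
      simp only [Units.val_mk0] at h2
      exact ht (u i) (huA i) (w j) (hwB j) h2
  have hneg : Algebra.norm F (-1 : K) = 1 := by
    have h1 : (-1 : K) = algebraMap F K (-1) := by simp
    rw [h1, Algebra.norm_algebraMap, hK.neg_one_pow]
  have hadj : ∀ i j, (NormGraph F K).Adj (f (Sum.inl i)) (f (Sum.inr j)) := by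
    intro i j
    refine ⟨hne i j, ?_⟩
    have hni : Algebra.norm F (α i : K) = (n (α i) : Fˣ) := rfl
    refine Fin.cases ?_ (fun j => ?_) j
    · rw [hl, hr0]
      simp only [add_zero, Units.val_mul, Units.val_inv_eq_inv_val]
      have h1 : Algebra.norm F ((α i : K)⁻¹) * Algebra.norm F (α i : K) = 1 := by
        rw [← map_mul, inv_mul_cancel₀ (α i).ne_zero, map_one]
      rw [hni] at h1
      have h2 : (e : F) ≠ 0 := e.ne_zero
      have h3 : ((n (α i) : Fˣ) : F) ≠ 0 := (n (α i)).ne_zero
      have h4 : Algebra.norm F ((α i : K)⁻¹) = ((n (α i) : Fˣ) : F)⁻¹ := eq_inv_of_mul_eq_one_left h1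
      rw [h4]
      field_simp
    · rw [hl, hr]
      simp only [Units.val_mul, Units.val_inv_eq_inv_val]
      have hnj : Algebra.norm F (β j : K) = (n (β j) : Fˣ) := rfl
      have h1 : ((α i : K)⁻¹ + -(β j : K)⁻¹) * ((α i : K) * (β j : K)) = (-1) * (u i - w j) := by
        have h2 := (α i).ne_zero
        have h3 := (β j).ne_zero
        have h4 : ((α i : K)⁻¹ + -(β j : K)⁻¹) * ((α i : K) * (β j : K)) =
            (β j : K) - (α i : K) := by
          field_simp
          ring
        rw [h4, hα, hβ]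
        simp only [Units.val_mk0]
        ring
      have h5 : Algebra.norm F ((α i : K)⁻¹ + -(β j : K)⁻¹) *
          (Algebra.norm F (α i : K) * Algebra.norm F (β j : K)) = ν * μ (w j) := by
        rw [← map_mul, ← map_mul, h1, map_mul, hneg, one_mul, h _ (huA i) _ (hwB j)]
      rw [hni, hnj] at h5
      have h2 : ((n (α i) : Fˣ) : F) ≠ 0 := (n (α i)).ne_zero
      have h3 : ((n (β j) : Fˣ) : F) ≠ 0 := (n (β j)).ne_zero
      have h6 : (e : F) = ν := rfl
      have h7 : (m j : F) = μ (w j) := rfl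
      rw [h6, h7, eq_div_of_mul_eq (mul_ne_zero h2 h3) h5]
      field_simp
  have hinj : Function.Injective f := by
    intro x y hxy
    rcases x with x | x <;> rcases y with y | y
    · rw [hl, hl] at hxy
      have h1 : (α x : K) = (α y : K) := inv_injective (Prod.ext_iff.1 hxy).1
      rw [hα] at h1
      simp only [Units.val_mk0, sub_left_inj] at h1
      exact congrArg _ (hui h1)
    · exact absurd hxy (hne x y)
    · exact absurd hxy.symm (hne y x)
    · revert hxy
      refine Fin.cases ?_ (fun x => ?_) x <;> refine Fin.cases ?_ (fun y => ?_) y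
      · intro _
        rfl
      · rw [hr0, hr]
        intro h
        have h1 := (Prod.ext_iff.1 h).1
        exact absurd h1.symm (neg_ne_zero.2 (inv_ne_zero (β y).ne_zero))
      · rw [hr0, hr]
        intro h
        have h1 := (Prod.ext_iff.1 h).1
        exact absurd h1 (neg_ne_zero.2 (inv_ne_zero (β x).ne_zero))
      · rw [hr, hr]
        intro h
        have h1 : (β x : K) = (β y : K) := inv_injective (neg_injective (Prod.ext_iff.1 h).1)
        rw [hβ] at h1
        simp only [Units.val_mk0, sub_left_inj] at h1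
        rw [hwi h1]
  refine ⟨⟨⟨f, ?_⟩, hinj⟩⟩
  intro x y hxy
  rcases x with x | x <;> rcases y with y | y
  · simp at hxy
  · exact hadj x y
  · exact (hadj y x).symm
  · simp at hxy

theorem bicp {F K : Type} [Field F] [Field K] [Finite K] [Algebra F K] (hK : Even (Module.finrank F K)) (A B : Finset K)
    (c : F) (hc : c ≠ 0) (hAB : ∀ x ∈ A, ∀ y ∈ B, x ≠ y) (h : ∀ x ∈ A, ∀ y ∈ B, Algebra.norm F (x - y) = c)
    (hcard : A.card + B.card + A.card * B.card < Nat.card K) :
    completeBipartiteGraph (Fin A.card) (Fin (B.card + 1)) ⊑ NormGraph F K :=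
  bic hK A B c (fun _ => 1) hc (fun _ _ => one_ne_zero) hAB (fun x hx y hy => by rw [h x hx y hy, mul_one]) hcard

/-- points with constant norms of the differences give a biclique -/
theorem bic_V {F K : Type} [Field F] [Field K] [Finite K] [Algebra F K] (hK : Even (Module.finrank F K)) (L : K) (c : F)
    (hc : c ≠ 0) (V : Finset K) (hV : ∀ x ∈ V, ∀ y ∈ V, x ≠ y → Algebra.norm F (x - y - L) = c) (a b : ℕ)
    (hab : a + b = V.card) (hq : V.card + V.card * V.card < Nat.card K) :
    completeBipartiteGraph (Fin a) (Fin (b + 1)) ⊑ NormGraph F K := by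
  classical
  obtain ⟨A, hAV, hA⟩ := Finset.exists_subset_card_eq (s := V) (n := a) (by omega)
  have hB : ((V \ A).map (addRightEmbedding L)).card = b := by
    rw [Finset.card_map, Finset.card_sdiff_of_subset hAV, hA]
    omega
  have hnorm : ∀ x ∈ A, ∀ y ∈ (V \ A).map (addRightEmbedding L), Algebra.norm F (x - y) = c := by
    intro x hx y hy
    obtain ⟨z, hz, rfl⟩ := Finset.mem_map.1 hy
    rw [Finset.mem_sdiff] at hz
    have hxz : x ≠ z := fun h => hz.2 (h ▸ hx)
    have h1 := hV x (hAV hx) z hz.1 hxz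
    have h2 : x - (addRightEmbedding L) z = x - z - L := by
      change x - (z + L) = x - z - L
      ring
    rw [h2]
    exact h1
  have h := bic hK A ((V \ A).map (addRightEmbedding L)) c (fun _ => 1) hc (fun _ _ => one_ne_zero) ?_ ?_ ?_
  · rw [hA, hB] at h
    exact h
  · intro x hx y hy hxy
    have h3 := hnorm x hx y hy
    rw [hxy, sub_self, Algebra.norm_zero] at h3
    exact hc h3.symm
  · intro x hx y hy
    rw [hnorm x hx y hy, mul_one]
  · rw [hA, hB, hab]
    refine lt_of_le_of_lt ?_ hq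
    have h1 : a * b ≤ V.card * V.card := Nat.mul_le_mul (by omega) (by omega)
    omega

end Pool.Agent.Lib.NGP
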