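import Pool.Agent.Lib.NGP.Frb

/-!
# NGP / Carl: the Carlitz module, `P(T)` is the Frobenius map

PROOF IN WORDS. Write `T^n y = ∑_i c(n,i) y^(p^i)` with the formal coefficients `c(0,0) = 1`, `c(n+1,i) = b c(n,i) + c(n,i-1)^p` (left multiplication by `T`). They also satisfy `c(n+1,i) = c(n,i) b^(p^i) + c(n,i-1)` (right multiplication; induction on `n` from both recursions). `C_i = ∑_n P_n c(n,i)`, `P_n ∈ F_p`; the two recursions give
`b C_i + C_(i-1)^p = C_i b^(p^i) + C_(i-1)` (`P_n^p = P_n`, the `p`-th power is additive). `C_0 = P(b) = 0`. For `0 < i < deg P`: `b^(p^i) ≠ b` (`pow_ne`), so `C_i = 0` by induction. `c(n,i) = 0` for `i > n`, `c(n,n) = 1`: `C_(deg P) = 1` (monic), `C_i = 0` for `i > deg P`. So `P(T) y = y^(p^(deg P))`.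
(Other way: the additive polynomials in `y` as functions; work with the ring `K →+ K` and the identity `T P(T) = P(T) T`.)
-/

set_option autoImplicit false

namespace Pool.Agent.Lib.NGP

open Polynomial

/-- coefficients of `T ^ n` -/
private def carl_c {K : Type} [Field K] (p : ℕ) (b : K) : ℕ → ℕ → K
  | 0, 0 => 1
  | 0, _ + 1 => 0
  | n + 1, 0 => b * carl_c p b n 0
  | n + 1, i + 1 => b * carl_c p b n (i + 1) + carl_c p b n i ^ p

private lemma carl_gt {K : Type} [Field K] (p : ℕ) (hp : p ≠ 0) (b : K) (n : ℕ) : ∀ i, n < i → carl_c p b n i = 0 := by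
  induction n with
  | zero =>
    intro i hi
    obtain ⟨j, rfl⟩ := Nat.exists_eq_succ_of_ne_zero (by omega : i ≠ 0)
    rfl
  | succ n ih =>
    intro i hi
    obtain ⟨j, rfl⟩ := Nat.exists_eq_succ_of_ne_zero (by omega : i ≠ 0)
    change b * carl_c p b n (j + 1) + carl_c p b n j ^ p = 0
    rw [ih (j + 1) (by omega), ih j (by omega), zero_pow hp]
    ring

private lemma carl_diag {K : Type} [Field K] (p : ℕ) (hp : p ≠ 0) (b : K) (n : ℕ) : carl_c p b n n = 1 := by
  induction n with
  | zero => rfl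
  | succ n ih =>
    change b * carl_c p b n (n + 1) + carl_c p b n n ^ p = 1
    rw [ih, carl_gt p hp b n (n + 1) (by omega), one_pow]
    ring

private lemma carl_zero {K : Type} [Field K] (p : ℕ) (b : K) (n : ℕ) : carl_c p b n 0 = b ^ n := by
  induction n with
  | zero => rw [pow_zero]; rfl
  | succ n ih =>
    change b * carl_c p b n 0 = b ^ (n + 1)
    rw [ih, pow_succ']

private lemma carl_right0 {K : Type} [Field K] (p : ℕ) (b : K) (n : ℕ) : carl_c p b (n + 1) 0 = carl_c p b n 0 * b := by
  rw [carl_zero, carl_zero, pow_succ]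

private lemma carl_right {K : Type} [Field K] (p : ℕ) [Fact p.Prime] [CharP K p] (b : K) (n : ℕ) :
    ∀ i, carl_c p b (n + 1) (i + 1) = carl_c p b n (i + 1) * b ^ p ^ (i + 1) + carl_c p b n i := by
  have hp0 : p ≠ 0 := (Fact.out : p.Prime).ne_zero
  induction n with
  | zero =>
    intro i
    change b * carl_c p b 0 (i + 1) + carl_c p b 0 i ^ p = carl_c p b 0 (i + 1) * b ^ p ^ (i + 1) + carl_c p b 0 i
    have h1 : carl_c p b 0 (i + 1) = 0 := rfl
    rw [h1]
    rcases i with _ | i
    · have h2 : carl_c p b 0 0 = 1 := rfl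
      rw [h2, one_pow]
      ring
    · have h2 : carl_c p b 0 (i + 1) = 0 := rfl
      rw [h2, zero_pow hp0]
      ring
  | succ n ih =>
    intro i
    have h1 : carl_c p b (n + 2) (i + 1) = b * carl_c p b (n + 1) (i + 1) + carl_c p b (n + 1) i ^ p := rfl
    have h2 : carl_c p b (n + 1) (i + 1) = b * carl_c p b n (i + 1) + carl_c p b n i ^ p := rfl
    have hp : b ^ p ^ (i + 1) = (b ^ p ^ i) ^ p := by rw [← pow_mul, pow_succ]
    rw [h1]
    rcases i with _ | i
    · rw [carl_right0 p b n, ih 0, mul_pow]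
      rw [ih 0] at h2
      simp only [zero_add, pow_one] at h2 ⊢
      linear_combination (-(b ^ p)) * h2
    · have h3 : carl_c p b (n + 1) (i + 1) = b * carl_c p b n (i + 1) + carl_c p b n i ^ p := rfl
      have h4 : carl_c p b (n + 1) (i + 1) ^ p = (carl_c p b n (i + 1)) ^ p * b ^ p ^ (i + 2) + carl_c p b n i ^ p := by
        rw [ih i, add_pow_char, mul_pow, ← pow_mul b, ← pow_succ]
      rw [h4, h3, ih (i + 1)]
      rw [ih (i + 1)] at h2
      linear_combination (-(b ^ p ^ (i + 2))) * h2

private lemma carl_pow {K : Type} [Field K] (p : ℕ) [Fact p.Prime] [Algebra (ZMod p) K] [CharP K p] (b : K)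
    (T : Module.End (ZMod p) K) (hT : ∀ y, T y = y ^ p + b * y) (y : K) (m : ℕ) :
    ∀ n ≤ m, (T ^ n) y = ∑ i ∈ Finset.range (m + 1), carl_c p b n i * y ^ p ^ i := by
  have hp0 : p ≠ 0 := (Fact.out : p.Prime).ne_zero
  intro n
  induction n with
  | zero =>
    intro _
    rw [pow_zero, Finset.sum_range_succ']
    have h1 : ∀ i, carl_c p b 0 (i + 1) = 0 := fun _ => rfl
    have h2 : carl_c p b 0 0 = 1 := rfl
    simp [h1, h2]
  | succ n ih =>
    intro hn
    rw [pow_succ', Module.End.mul_apply, hT, ih (by omega), sum_pow_char, Finset.sum_range_succ, Finset.sum_range_succ',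
      Finset.sum_range_succ', carl_gt p hp0 b n m (by omega), mul_add, Finset.mul_sum]
    have h1 : ∀ i, carl_c p b (n + 1) (i + 1) * y ^ p ^ (i + 1) =
        (carl_c p b n i * y ^ p ^ i) ^ p + b * (carl_c p b n (i + 1) * y ^ p ^ (i + 1)) := by
      intro i
      have h2 : carl_c p b (n + 1) (i + 1) = b * carl_c p b n (i + 1) + carl_c p b n i ^ p := rfl
      rw [h2, mul_pow, ← pow_mul y, ← pow_succ]
      ring
    have h3 : carl_c p b (n + 1) 0 = b * carl_c p b n 0 := rfl
    rw [Finset.sum_congr rfl fun i _ => h1 i, Finset.sum_add_distrib, h3, zero_mul, zero_pow hp0]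
    ring

theorem carlitz {p : ℕ} [Fact p.Prime] {K : Type} [Field K] [Algebra (ZMod p) K] (b : K) (P : (ZMod p)[X])
    (hP : Irreducible P) (hPm : P.Monic)
    (hb : aeval b P = 0) (T : Module.End (ZMod p) K) (hT : ∀ y, T y = y ^ p + b * y) (y : K) :
    aeval T P y = y ^ p ^ P.natDegree := by
  have hp0 : p ≠ 0 := (Fact.out : p.Prime).ne_zero
  have : CharP K p := charP_of_injective_algebraMap (algebraMap (ZMod p) K).injective p
  set D := P.natDegree with hD
  have hD0 : 0 < D := hP.natDegree_pos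
  let a : ℕ → K := fun n => algebraMap (ZMod p) K (P.coeff n)
  have ha : ∀ n, a n ^ p = a n := by
    intro n
    change (algebraMap (ZMod p) K (P.coeff n)) ^ p = algebraMap (ZMod p) K (P.coeff n)
    rw [← map_pow]
    congr 1
    exact ZMod.pow_card (p := p) (P.coeff n)
  let C : ℕ → K := fun i => ∑ n ∈ Finset.range (D + 1), a n * carl_c p b n i
  have hC0 : C 0 = 0 := by
    rw [← hb, aeval_eq_sum_range]
    refine Finset.sum_congr rfl fun n _ => ?_
    rw [carl_zero, Algebra.smul_def]
  have hrec : ∀ i, b * C (i + 1) + C i ^ p = C (i + 1) * b ^ p ^ (i + 1) + C i := by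
    intro i
    have h1 : ∑ n ∈ Finset.range (D + 1), a n * carl_c p b (n + 1) (i + 1) = b * C (i + 1) + C i ^ p := by
      change _ = b * (∑ n ∈ Finset.range (D + 1), a n * carl_c p b n (i + 1)) +
        (∑ n ∈ Finset.range (D + 1), a n * carl_c p b n i) ^ p
      rw [sum_pow_char, Finset.mul_sum, ← Finset.sum_add_distrib]
      refine Finset.sum_congr rfl fun n _ => ?_
      have h2 : carl_c p b (n + 1) (i + 1) = b * carl_c p b n (i + 1) + carl_c p b n i ^ p := rfl
      rw [h2, mul_pow, ha]
      ring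
    have h2 : ∑ n ∈ Finset.range (D + 1), a n * carl_c p b (n + 1) (i + 1) = C (i + 1) * b ^ p ^ (i + 1) + C i := by
      change _ = (∑ n ∈ Finset.range (D + 1), a n * carl_c p b n (i + 1)) * b ^ p ^ (i + 1) +
        ∑ n ∈ Finset.range (D + 1), a n * carl_c p b n i
      rw [Finset.sum_mul, ← Finset.sum_add_distrib]
      refine Finset.sum_congr rfl fun n _ => ?_
      rw [carl_right]
      ring
    rw [← h1, h2]
  have hCi : ∀ i, i < D → C i = 0 := by
    intro i
    induction i with
    | zero => exact fun _ => hC0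
    | succ i ih =>
      intro hi
      have h1 := hrec i
      rw [ih (by omega), zero_pow hp0] at h1
      have h2 : C (i + 1) * (b ^ p ^ (i + 1) - b) = 0 := by linear_combination -h1
      rcases mul_eq_zero.1 h2 with h3 | h3
      · exact h3
      · exact absurd (sub_eq_zero.1 h3) (pow_ne b P hP hb (i + 1) (by omega) hi)
  have hCD : C D = 1 := by
    change ∑ n ∈ Finset.range (D + 1), a n * carl_c p b n D = 1
    rw [Finset.sum_range_succ, Finset.sum_eq_zero, carl_diag p hp0, zero_add, mul_one]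
    · change algebraMap (ZMod p) K (P.coeff D) = 1
      rw [hD, hPm.coeff_natDegree, map_one]
    · intro n hn
      rw [carl_gt p hp0 b n D (Finset.mem_range.1 hn), mul_zero]
  have hfin : aeval T P y = ∑ i ∈ Finset.range (D + 1), C i * y ^ p ^ i := by
    rw [aeval_eq_sum_range, LinearMap.sum_apply]
    change _ = ∑ i ∈ Finset.range (D + 1), (∑ n ∈ Finset.range (D + 1), a n * carl_c p b n i) * y ^ p ^ i
    have h1 : ∀ i, (∑ n ∈ Finset.range (D + 1), a n * carl_c p b n i) * y ^ p ^ i =
        ∑ n ∈ Finset.range (D + 1), a n * (carl_c p b n i * y ^ p ^ i) := by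
      intro i
      rw [Finset.sum_mul]
      refine Finset.sum_congr rfl fun n _ => ?_
      ring
    rw [Finset.sum_congr rfl fun i _ => h1 i, Finset.sum_comm]
    refine Finset.sum_congr rfl fun n hn => ?_
    rw [LinearMap.smul_apply, carl_pow p b T hT y D n (by have := Finset.mem_range.1 hn; omega), Algebra.smul_def,
      Finset.mul_sum]
  rw [hfin, Finset.sum_range_succ, hCD, one_mul, Finset.sum_eq_zero, zero_add]
  intro i hi
  rw [hCi i (Finset.mem_range.1 hi), zero_mul]

end Pool.Agent.Lib.NGP
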