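import Pool.Agent.Lib.NGP.Triv
import Pool.Agent.Lib.NGP.CcZ

/-!
# NGP / Dra: bounds for the trivial character

PROOF IN WORDS. `prime_powers_le`: a divisor `r ≠ e` of `e` is `≤ e/2`; `r card (Irr p r) ≤ 2^r` (a term of `irr_sum r`), `∑_{r ≤ e/2} 2^r ≤ 2 * 2^(e/2)`. `bad_le`: the irreducible monic divisors of `M` are pairwise coprime (different primes), their product divides `M`, `Finset.prod_dvd_of_coprime`, degree of the product = the sum of the degrees.
`SS_one`: `hom M 1 P` is `1` if `mk M P` is a unit, i.e. `P` coprime to `M`, i.e. `P` does not divide `M` (irreducible), otherwise `0`; `e / r ≥ 1`.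
-/

set_option autoImplicit false

namespace Pool.Agent.Lib.NGP

open Polynomial

variable {p : ℕ} [Fact p.Prime]

private theorem dra_mem {n : ℕ} {P : (ZMod p)[X]} (h : P ∈ Irr p n) : P.Monic ∧ P.natDegree = n ∧ Irreducible P := by
  classical
  unfold Irr at h
  obtain ⟨h1, h2⟩ := Finset.mem_filter.1 h
  obtain ⟨h3, h4⟩ := (mem_Mon n P).1 h1
  exact ⟨h3, h4, h2⟩

theorem prime_powers_le (e : ℕ) (he : 1 ≤ e) : ∑ r ∈ e.divisors.erase e, r * (Irr p r).card ≤ 2 * p ^ (e / 2) := by
  have h1 : ∀ r ∈ e.divisors.erase e, r * (Irr p r).card ≤ p ^ r := by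
    intro r hr
    have hr0 : 1 ≤ r := Nat.pos_of_mem_divisors (Finset.mem_of_mem_erase hr)
    rw [← irr_sum r hr0]
    exact Finset.single_le_sum (f := fun d => d * (Irr p d).card) (fun _ _ => Nat.zero_le _)
      (Nat.mem_divisors.2 ⟨dvd_rfl, by omega⟩)
  have h2 : e.divisors.erase e ⊆ Finset.range (e / 2 + 1) := by
    intro r hr
    obtain ⟨hne, hr⟩ := Finset.mem_erase.1 hr
    obtain ⟨⟨k, hk⟩, h0⟩ := Nat.mem_divisors.1 hr
    rw [Finset.mem_range]
    have hk2 : 2 ≤ k := by
      rcases k with _ | _ | k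
      · simp at hk
        omega
      · simp at hk
        omega
      · omega
    have : 2 * r ≤ e := by
      rw [hk]
      nlinarith
    omega
  calc ∑ r ∈ e.divisors.erase e, r * (Irr p r).card ≤ ∑ r ∈ e.divisors.erase e, p ^ r := Finset.sum_le_sum h1
    _ ≤ ∑ r ∈ Finset.range (e / 2 + 1), p ^ r := Finset.sum_le_sum_of_subset h2
    _ ≤ 2 * p ^ (e / 2) := by
      have h3 : ∀ k : ℕ, ∑ r ∈ Finset.range (k + 1), p ^ r ≤ 2 * p ^ k := by
        intro k
        induction k with
        | zero => simp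
        | succ k ih =>
          rw [Finset.sum_range_succ]
          have h5 : 2 * p ^ k ≤ p ^ (k + 1) := by
            rw [pow_succ, mul_comm]
            exact Nat.mul_le_mul_left _ (Fact.out : p.Prime).two_le
          omega
      exact h3 (e / 2)

open Classical in
theorem bad_le (M : (ZMod p)[X]) (hM : M.Monic) (e : ℕ) :
    ∑ r ∈ e.divisors, r * ((Irr p r).filter fun P => P ∣ M).card ≤ M.natDegree := by
  set B : ℕ → Finset (ZMod p)[X] := fun r => (Irr p r).filter fun P => P ∣ M with hB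
  have hdis : (e.divisors : Set ℕ).PairwiseDisjoint B := by
    intro r _ r' _ hne
    rw [Function.onFun, Finset.disjoint_left]
    intro P h1 h2
    have h3 := (dra_mem (Finset.mem_filter.1 h1).1).2.1
    have h4 := (dra_mem (Finset.mem_filter.1 h2).1).2.1
    exact hne (h3.symm.trans h4)
  have h1 : ∑ r ∈ e.divisors, r * (B r).card = ∑ P ∈ e.divisors.biUnion B, P.natDegree := by
    rw [Finset.sum_biUnion hdis]
    refine Finset.sum_congr rfl fun r _ => ?_
    rw [Finset.sum_congr rfl fun P hP => (dra_mem (Finset.mem_filter.1 hP).1).2.1, Finset.sum_const, smul_eq_mul,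
      mul_comm]
  have hmem : ∀ P ∈ e.divisors.biUnion B, P.Monic ∧ Irreducible P ∧ P ∣ M := by
    intro P hP
    obtain ⟨r, -, hr⟩ := Finset.mem_biUnion.1 hP
    obtain ⟨h2, h3⟩ := Finset.mem_filter.1 hr
    obtain ⟨h4, -, h5⟩ := dra_mem h2
    exact ⟨h4, h5, h3⟩
  have h2 : (∏ P ∈ e.divisors.biUnion B, P) ∣ M := by
    refine Finset.prod_dvd_of_coprime ?_ fun P hP => (hmem P hP).2.2
    intro P hP Q hQ hne
    obtain ⟨p1, p2, -⟩ := hmem P hP
    obtain ⟨q1, q2, -⟩ := hmem Q hQ
    show IsCoprime P Q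
    refine (p2.coprime_iff_not_dvd).2 fun h => hne ?_
    exact eq_of_monic_of_associated p1 q1 (p2.associated_of_dvd q2 h)
  rw [h1, ← natDegree_prod_of_monic _ _ fun P hP => (hmem P hP).1]
  exact natDegree_le_of_dvd h2 hM.ne_zero

private theorem hom_one (M P : (ZMod p)[X]) (hP : Irreducible P) :
    (P ∣ M → hom M 1 P = 0) ∧ (¬ P ∣ M → hom M 1 P = 1) := by
  have hdef : hom M 1 P = (1 : MulChar (AdjoinRoot M) ℂ) (AdjoinRoot.mk M P) := rfl
  rw [hdef]
  constructor
  · intro h
    refine MulChar.map_nonunit _ fun hu => ?_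
    obtain ⟨b, hb⟩ := hu.exists_right_inv
    obtain ⟨Q, rfl⟩ := AdjoinRoot.mk_surjective b
    rw [← map_mul, ← map_one (AdjoinRoot.mk M), AdjoinRoot.mk_eq_mk] at hb
    have h1 : P ∣ P * Q - 1 := h.trans hb
    have h2 : P ∣ 1 := (dvd_sub_right (dvd_mul_right P Q)).1 h1
    exact hP.not_isUnit (isUnit_of_dvd_one h2)
  · intro h
    refine MulChar.one_apply ?_
    obtain ⟨a, b, hab⟩ := (hP.coprime_iff_not_dvd).2 h
    refine IsUnit.of_mul_eq_one (AdjoinRoot.mk M a) ?_
    rw [← map_mul, ← map_one (AdjoinRoot.mk M), AdjoinRoot.mk_eq_mk]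
    refine ⟨-b, ?_⟩
    linear_combination hab

open Classical in
theorem SS_one (M : (ZMod p)[X]) (e : ℕ) (he : 1 ≤ e) :
    SS (hom M 1) e = ((∑ r ∈ e.divisors, r * ((Irr p r).filter fun P => ¬ P ∣ M).card : ℕ) : ℂ) := by
  unfold SS
  push_cast
  refine Finset.sum_congr rfl fun r hr => ?_
  have hr0 : 1 ≤ e / r :=
    (Nat.one_le_div_iff (Nat.pos_of_mem_divisors hr)).2 (Nat.divisor_le hr)
  rw [← Finset.mul_sum]
  congr 1
  rw [Finset.card_filter]
  push_cast
  refine Finset.sum_congr rfl fun P hP => ?_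
  have h := hom_one M P (dra_mem hP).2.2
  by_cases hd : P ∣ M
  · rw [h.1 hd, zero_pow (by omega), if_neg (not_not.2 hd)]
  · rw [h.2 hd, one_pow, if_pos hd]

end Pool.Agent.Lib.NGP
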