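import Pool.Agent.Lib.NGP.Lt2
import Pool.Agent.Lib.NGP.Dra
import Pool.Agent.Lib.NGE.Sm

/-!
# NGP / Dir: irreducible polynomials of every large degree in a residue class

PROOF IN WORDS. `orth_SS` for `a`: `card(units) * ∑_{r ∣ e} r #{P ∈ Irr p r : M ∣ P^(e/r) - a}` `= SS (hom M 1) e * 1 + ∑_{χ≠1} ..` (`hom M 1 a = 1`). `SS (hom M 1) e ≥ 2^e - deg M` (`SS_one`, `bad_le`, `irr_sum`: the two filters add up to `card (Irr p r)`). The terms `χ ≠ 1` have absolute value `≤ δ 2^e` each (`abs_lt_p`, `small` with `ρ = 2`,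
`‖(hom M χ a)⁻¹‖ = 1`), in all `≤ 2^e/4` for large `e`. On the left the terms with `r < e` are at most `∑ r card (Irr p r) ≤ 2 * 2^(e/2)` (`prime_powers_le`), times `card(units)` (a constant), `≤ 2^e/4` for large `e`. So the term `r = e` is not `0`: there is `P ∈ Irr p e` with `M ∣ P - a`.
-/

set_option autoImplicit false

namespace Pool.Agent.Lib.NGP

open Polynomial

variable {p : ℕ} [Fact p.Prime]

private theorem hom_one_eq (M a : (ZMod p)[X]) (ha : IsCoprime a M) : hom M 1 a = 1 := by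
  obtain ⟨b, c, hbc⟩ := ha
  have hu : IsUnit (AdjoinRoot.mk M a) := by
    have h1 : AdjoinRoot.mk M b * AdjoinRoot.mk M a = 1 := by
      have h2 := congrArg (AdjoinRoot.mk M) hbc
      rw [map_add, map_mul, map_mul, AdjoinRoot.mk_self, mul_zero, add_zero, map_one] at h2
      exact h2
    exact IsUnit.of_mul_eq_one _ (by rw [mul_comm]; exact h1)
  show (1 : MulChar (AdjoinRoot M) ℂ) (AdjoinRoot.mk M a) = 1
  exact MulChar.one_apply hu

private theorem norm_inv_le (M : (ZMod p)[X]) (hM : M.Monic) (a : (ZMod p)[X]) (ha : IsCoprime a M)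
    (χ : MulChar (AdjoinRoot M) ℂ) : ‖(hom M χ a)⁻¹‖ ≤ 1 := by
  obtain ⟨b, c, hbc⟩ := ha
  have h1 : hom M χ b * hom M χ a = 1 := by
    show χ (AdjoinRoot.mk M b) * χ (AdjoinRoot.mk M a) = 1
    rw [← map_mul, ← map_mul]
    have h2 := congrArg (AdjoinRoot.mk M) hbc
    rw [map_add, map_mul (AdjoinRoot.mk M) c, AdjoinRoot.mk_self, mul_zero, add_zero, map_one] at h2
    rw [h2, map_one]
  have h3 : (hom M χ a)⁻¹ = hom M χ b := (eq_inv_of_mul_eq_one_left h1).symm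
  rw [h3]
  exact norm_hom_le M hM χ b

open Classical in
private theorem good_ge (M : (ZMod p)[X]) (hM : M.Monic) (e : ℕ) (he : 1 ≤ e) :
    p ^ e ≤ (∑ r ∈ e.divisors, r * ((Irr p r).filter fun P => ¬ P ∣ M).card) + M.natDegree := by
  have h1 := irr_sum (p := p) e he
  have h2 := bad_le M hM e
  have h3 : ∑ r ∈ e.divisors, r * (Irr p r).card =
      ∑ r ∈ e.divisors, r * ((Irr p r).filter fun P => P ∣ M).card +
        ∑ r ∈ e.divisors, r * ((Irr p r).filter fun P => ¬ P ∣ M).card := by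
    rw [← Finset.sum_add_distrib]
    refine Finset.sum_congr rfl fun r _ => ?_
    rw [← Nat.mul_add, Finset.card_filter_add_card_filter_not]
  omega

private theorem pow_big (D N e : ℕ) (he : 2 * (D + 4 * N + 4) ≤ e) :
    (D : ℝ) + (p : ℝ) ^ e / 4 + N * (2 * (p : ℝ) ^ (e / 2)) < (p : ℝ) ^ e := by
  have hp : 2 ≤ p := (Fact.out : p.Prime).two_le
  have hpR : (1 : ℝ) ≤ p := by exact_mod_cast (by omega : 1 ≤ p)
  have h1 : D + 4 * N + 4 ≤ p ^ (e / 2) := by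
    have h2 : e / 2 < p ^ (e / 2) := Nat.lt_pow_self (by omega)
    omega
  have h2 : (p : ℝ) ^ (e / 2) * (p : ℝ) ^ (e / 2) ≤ (p : ℝ) ^ e := by
    rw [← pow_add]
    exact pow_le_pow_right₀ hpR (by omega)
  have h3 : (D : ℝ) + 4 * N + 4 ≤ (p : ℝ) ^ (e / 2) := by exact_mod_cast h1
  have hD : (0 : ℝ) ≤ D := Nat.cast_nonneg _
  have hN : (0 : ℝ) ≤ N := Nat.cast_nonneg _
  nlinarith

theorem exists_irr (M : (ZMod p)[X]) (hM : M.Monic) (hX : IsCoprime X M) (a : (ZMod p)[X]) (ha : IsCoprime a M) :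
    ∃ E : ℕ, ∀ e : ℕ, E ≤ e → ∃ P : (ZMod p)[X], Irreducible P ∧ P.Monic ∧ P.natDegree = e ∧ M ∣ P - a := by
  classical
  have hF : Finite (AdjoinRoot M) := finite_quot M hM
  obtain ⟨iF⟩ := nonempty_fintype (MulChar (AdjoinRoot M) ℂ)
  choose A hA hA' using fun χ : {χ : MulChar (AdjoinRoot M) ℂ // χ ≠ 1} => abs_lt_p M hM hX χ.1 χ.2
  set K : ℕ := Fintype.card (MulChar (AdjoinRoot M) ℂ) with hK
  have hK0 : (0 : ℝ) < K := by
    have : 0 < K := Fintype.card_pos_iff.2 ⟨1⟩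
    exact_mod_cast this
  obtain ⟨E1, hE1⟩ := Pool.Agent.Lib.NGE.small A (p : ℝ) (by exact_mod_cast (Fact.out : p.Prime).pos) hA' (1 / (4 * K)) (by positivity)
  set N : ℕ := Nat.card (AdjoinRoot M)ˣ with hN
  refine ⟨max (max E1 1) (2 * (M.natDegree + 4 * N + 4)), fun e he => ?_⟩
  have he1 : E1 ≤ e := le_trans (le_trans (le_max_left _ _) (le_max_left _ _)) he
  have he2 : 1 ≤ e := le_trans (le_trans (le_max_right _ _) (le_max_left _ _)) he
  have he3 : 2 * (M.natDegree + 4 * N + 4) ≤ e := le_trans (le_max_right _ _) he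
  by_contra hcon
  push Not at hcon
  have h1 := orth_SS M hM a ha e
  -- the term `r = e` is empty
  have h0 : ((Irr p e).filter fun P => M ∣ P ^ (e / e) - a).card = 0 := by
    rw [Finset.card_eq_zero, Finset.filter_eq_empty_iff]
    intro P hP hd
    rw [Nat.div_self (by omega), pow_one] at hd
    rw [Irr, Finset.mem_filter, mem_Mon] at hP
    exact hcon P hP.2 hP.1.1 hP.1.2 hd
  have hmem : e ∈ e.divisors := Nat.mem_divisors_self _ (by omega)
  have h2 : ∑ r ∈ e.divisors, r * ((Irr p r).filter fun P => M ∣ P ^ (e / r) - a).card ≤ 2 * p ^ (e / 2) := by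
    rw [← Finset.add_sum_erase _ _ hmem, h0, mul_zero, zero_add]
    refine le_trans (Finset.sum_le_sum fun r _ => ?_) (prime_powers_le e he2)
    exact Nat.mul_le_mul le_rfl (Finset.card_filter_le _ _)
  rw [← Finset.add_sum_erase _ _ (Finset.mem_univ (1 : MulChar (AdjoinRoot M) ℂ)), hom_one_eq M a ha, inv_one, one_mul,
    SS_one M e he2] at h1
  have h3 : ∀ χ ∈ Finset.univ.erase (1 : MulChar (AdjoinRoot M) ℂ),
      ‖(hom M χ a)⁻¹ * SS (hom M χ) e‖ ≤ 1 / (4 * K) * (p : ℝ) ^ e := by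
    intro χ hχ
    have hχ1 : χ ≠ 1 := (Finset.mem_erase.1 hχ).1
    rw [norm_mul, hA ⟨χ, hχ1⟩ e he2, norm_neg]
    have h4 := hE1 e he1 ⟨χ, hχ1⟩
    have h5 := norm_inv_le M hM a ha χ
    calc ‖(hom M χ a)⁻¹‖ * ‖((A ⟨χ, hχ1⟩).map fun α => α ^ e).sum‖
        ≤ 1 * ‖((A ⟨χ, hχ1⟩).map fun α => α ^ e).sum‖ := mul_le_mul_of_nonneg_right h5 (norm_nonneg _)
      _ ≤ _ := by rw [one_mul]; exact h4
  have h4 : ‖∑ χ ∈ Finset.univ.erase (1 : MulChar (AdjoinRoot M) ℂ), (hom M χ a)⁻¹ * SS (hom M χ) e‖ ≤ (p : ℝ) ^ e / 4 := by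
    refine le_trans (norm_sum_le _ _) (le_trans (Finset.sum_le_sum h3) ?_)
    rw [Finset.sum_const, nsmul_eq_mul]
    have h5 : ((Finset.univ.erase (1 : MulChar (AdjoinRoot M) ℂ)).card : ℝ) ≤ K := by
      exact_mod_cast (Finset.card_le_card (Finset.erase_subset _ _)).trans (le_of_eq (Finset.card_univ))
    calc ((Finset.univ.erase (1 : MulChar (AdjoinRoot M) ℂ)).card : ℝ) * (1 / (4 * K) * (p : ℝ) ^ e)
        ≤ K * (1 / (4 * K) * (p : ℝ) ^ e) := mul_le_mul_of_nonneg_right h5 (by positivity)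
      _ = (p : ℝ) ^ e / 4 := by field_simp
  have h5 : ‖((∑ r ∈ e.divisors, r * ((Irr p r).filter fun P => ¬ P ∣ M).card : ℕ) : ℂ)‖ ≤
      ‖((N * ∑ r ∈ e.divisors, r * ((Irr p r).filter fun P => M ∣ P ^ (e / r) - a).card : ℕ) : ℂ)‖ +
        ‖∑ χ ∈ Finset.univ.erase (1 : MulChar (AdjoinRoot M) ℂ), (hom M χ a)⁻¹ * SS (hom M χ) e‖ := by
    rw [← h1]
    calc _ = ‖(((∑ r ∈ e.divisors, r * ((Irr p r).filter fun P => ¬ P ∣ M).card : ℕ) : ℂ) +
          ∑ χ ∈ Finset.univ.erase (1 : MulChar (AdjoinRoot M) ℂ), (hom M χ a)⁻¹ * SS (hom M χ) e) -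
            ∑ χ ∈ Finset.univ.erase (1 : MulChar (AdjoinRoot M) ℂ), (hom M χ a)⁻¹ * SS (hom M χ) e‖ := by
          rw [add_sub_cancel_right]
      _ ≤ _ := norm_sub_le _ _
  rw [Complex.norm_natCast, Complex.norm_natCast] at h5
  have h6 := good_ge M hM e he2
  have h7 : (p : ℝ) ^ e ≤ ((∑ r ∈ e.divisors, r * ((Irr p r).filter fun P => ¬ P ∣ M).card : ℕ) : ℝ) + M.natDegree := by
    exact_mod_cast h6
  have h8 : ((N * ∑ r ∈ e.divisors, r * ((Irr p r).filter fun P => M ∣ P ^ (e / r) - a).card : ℕ) : ℝ) ≤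
      N * (2 * (p : ℝ) ^ (e / 2)) := by
    have := Nat.mul_le_mul (le_refl N) h2
    exact_mod_cast this
  have h9 := pow_big (p := p) M.natDegree N e he3
  linarith

end Pool.Agent.Lib.NGP
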