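import Pool.Agent.Lib.NGP.Defs
import Pool.Agent.Lib.NGE.App

/-!
# NGP / KCo: conjugate power sums

PROOF IN WORDS. `approx` for the two multisets together (`ι = Bool`), `ρ = 2`, `ε = 1/4`, some `e`: `‖p_A - k_A 2^e‖ ≤ 2^e/4` and `‖p_B - k_B 2^e‖ ≤ 2^e/4`; the conjugate of the first: `‖p_B - k_A 2^e‖ ≤ 2^e/4`, so `|k_A - k_B| ≤ 1/2`, equal.
-/

set_option autoImplicit false

namespace Pool.Agent.Lib.NGP

variable {p : ℕ} [Fact p.Prime]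

open Classical in
private theorem kp_eq (A : Multiset ℂ) : kp p A = (A.filter fun α => ‖α‖ = ((p : ℕ) : ℝ)).card := by
  unfold kp
  congr

theorem kp_conj (A B : Multiset ℂ) (hA : ∀ α ∈ A, ‖α‖ ≤ p) (hB : ∀ α ∈ B, ‖α‖ ≤ p)
    (h : ∀ e : ℕ, 1 ≤ e → (B.map fun α => α ^ e).sum = starRingEnd ℂ (A.map fun α => α ^ e).sum) : kp p A = kp p B := by
  have hp0 : (0 : ℝ) < ((p : ℕ) : ℝ) := by exact_mod_cast (Fact.out : p.Prime).pos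
  obtain ⟨e, _, he1, happ⟩ := NGE.approx (ι := Bool) (fun b => cond b A B) ((p : ℕ) : ℝ) hp0 (by
    intro b
    cases b
    · exact hB
    · exact hA) (1 / 4) (by norm_num) 0
  have hA' := happ true
  have hB' := happ false
  simp only [cond_true, cond_false] at hA' hB'
  rw [← kp_eq] at hA' hB'
  rw [h e he1] at hB'
  obtain ⟨s, hs⟩ : ∃ s, s = (A.map fun α => α ^ e).sum := ⟨_, rfl⟩
  rw [← hs] at hA' hB'
  have hconj : ‖starRingEnd ℂ s - ((kp p A : ℕ) : ℂ) * (((p : ℕ) : ℝ) : ℂ) ^ e‖ ≤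
      1 / 4 * ((p : ℕ) : ℝ) ^ e := by
    have h1 : starRingEnd ℂ s - ((kp p A : ℕ) : ℂ) * (((p : ℕ) : ℝ) : ℂ) ^ e =
        starRingEnd ℂ (s - ((kp p A : ℕ) : ℂ) * (((p : ℕ) : ℝ) : ℂ) ^ e) := by
      rw [map_sub, map_mul, map_pow, Complex.conj_ofReal, map_natCast]
    rw [h1, Complex.norm_conj]
    exact hA'
  have h2 : ‖(((kp p A : ℕ) : ℂ) - ((kp p B : ℕ) : ℂ)) * (((p : ℕ) : ℝ) : ℂ) ^ e‖ ≤
      1 / 2 * ((p : ℕ) : ℝ) ^ e := by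
    have h3 : (((kp p A : ℕ) : ℂ) - ((kp p B : ℕ) : ℂ)) * (((p : ℕ) : ℝ) : ℂ) ^ e =
        (starRingEnd ℂ s - ((kp p B : ℕ) : ℂ) * (((p : ℕ) : ℝ) : ℂ) ^ e) -
          (starRingEnd ℂ s - ((kp p A : ℕ) : ℂ) * (((p : ℕ) : ℝ) : ℂ) ^ e) := by ring
    rw [h3]
    refine (norm_sub_le _ _).trans ?_
    linarith
  rw [norm_mul, norm_pow, Complex.norm_real, Real.norm_eq_abs, abs_of_pos hp0] at h2
  have h4 : ‖((kp p A : ℕ) : ℂ) - ((kp p B : ℕ) : ℂ)‖ ≤ 1 / 2 :=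
    le_of_mul_le_mul_right h2 (by positivity)
  have h5 : ((kp p A : ℕ) : ℂ) - ((kp p B : ℕ) : ℂ) =
      (((((kp p A : ℕ) : ℤ) - ((kp p B : ℕ) : ℤ) : ℤ) : ℝ) : ℂ) := by
    push_cast
    ring
  rw [h5, Complex.norm_real, Real.norm_eq_abs] at h4
  have h6 : |((kp p A : ℕ) : ℤ) - ((kp p B : ℕ) : ℤ)| < 1 := by
    have : ((|((kp p A : ℕ) : ℤ) - ((kp p B : ℕ) : ℤ)| : ℤ) : ℝ) < ((1 : ℤ) : ℝ) := by
      rw [Int.cast_abs]
      push_cast at h4 ⊢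
      linarith
    exact_mod_cast this
  have h7 := Int.abs_lt_one_iff.1 h6
  omega

end Pool.Agent.Lib.NGP
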