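import Pool.Agent.Lib.NGP.MonL

/-!
# NGP / ReX: the divisor sum of a power of X

PROOF IN WORDS. The monic divisors of `X^(2k)` are the `X^i`, `i ≤ 2k`, one in each degree (`dvd_prime_pow`, `Polynomial.prime_X`). `x = g X = ±1`: `∑_{i ≤ 2k} x^i` is `2k+1` or `1`.
-/

set_option autoImplicit false

namespace Pool.Agent.Lib.NGP

open Polynomial

variable {p : ℕ} [Fact p.Prime]

open Classical in
theorem t_X (g : (ZMod p)[X] →* ℤ) (hg : ∀ f, g f = 1 ∨ g f = -1 ∨ g f = 0) (hX : g X ≠ 0) (k : ℕ) :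
    1 ≤ ∑ j ∈ Finset.range (2 * k + 1), ∑ d ∈ (Mon p j).filter (fun d => d ∣ X ^ (2 * k)), g d := by
  have h1 : ∀ j ∈ Finset.range (2 * k + 1),
      ∑ d ∈ (Mon p j).filter (fun d => d ∣ (X : (ZMod p)[X]) ^ (2 * k)), g d = (g X) ^ j := by
    intro j hj
    have hj' : j ≤ 2 * k := Nat.lt_succ_iff.1 (Finset.mem_range.1 hj)
    have h2 : (Mon p j).filter (fun d => d ∣ (X : (ZMod p)[X]) ^ (2 * k)) = {X ^ j} := by
      ext d
      rw [Finset.mem_filter, mem_Mon, Finset.mem_singleton]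
      constructor
      · rintro ⟨⟨hm, hd⟩, hdvd⟩
        obtain ⟨i, hi, hass⟩ := (dvd_prime_pow Polynomial.prime_X (2 * k)).1 hdvd
        have h3 : d = X ^ i := Polynomial.eq_of_monic_of_associated hm (monic_X_pow i) hass
        have h4 : i = j := by
          rw [h3, natDegree_X_pow] at hd
          exact hd
        rw [h3, h4]
      · rintro rfl
        exact ⟨⟨monic_X_pow j, natDegree_X_pow j⟩, pow_dvd_pow X hj'⟩
    rw [h2, Finset.sum_singleton, map_pow]
  rw [Finset.sum_congr rfl h1]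
  rcases hg X with h | h | h
  · rw [h]
    simp
  · rw [h]
    have h5 : ∀ n : ℕ, ∑ i ∈ Finset.range (2 * n + 1), (-1 : ℤ) ^ i = 1 := by
      intro n
      induction n with
      | zero => simp
      | succ n ih =>
        rw [show 2 * (n + 1) + 1 = (2 * n + 1) + 1 + 1 from by ring, Finset.sum_range_succ, Finset.sum_range_succ, ih]
        have h6 : (-1 : ℤ) ^ (2 * n + 1) = -1 := Odd.neg_one_pow ⟨n, rfl⟩
        have h7 : (-1 : ℤ) ^ (2 * n + 1 + 1) = 1 := Even.neg_one_pow ⟨n + 1, by ring⟩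
        rw [h6, h7]
        norm_num
    rw [h5]
  · exact absurd h hX

end Pool.Agent.Lib.NGP
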