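import Pool.Agent.Lib.NGP.NwB
import Pool.Agent.Lib.NGP.Rea
import Pool.Agent.Lib.NGP.ReX

/-!
# NGP / Real: a real character has no zero at `1/2` and `-1/2`

PROOF IN WORDS. Suppose the sum is `0`. `g(d) = ε^(deg d) h(d)` is completely multiplicative with values in `{-1, 0, 1}`, as a homomorphism to `ℤ`. `t(f)` = sum over the monic divisors: `t ≥ 0` (`t_nonneg`), `t(X^(2m)) ≥ 1` (`t_X`). `∑_{f ∈ Mon p n} t(f) = ∑_{j ≤ n} ∑_{d ∈ Mon p j} g d * card {f ∈ Mon p n : d ∣ f}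
= ∑_{j ≤ n} ε^j cc h j * 2^(n-j)` (`sum_mult` for `h = 1`, `card_Mon`) `= 2^n ∑_{j ≤ n} cc h j (ε/2)^j = 2^n * 0 = 0` for `n ≥ m` (`cc h j = 0` for `j ≥ m`). `n = 2m`: `0 ≥ t(X^(2m)) ≥ 1`, contradiction.
-/

set_option autoImplicit false

namespace Pool.Agent.Lib.NGP

open Polynomial

variable {p : ℕ} [Fact p.Prime]

open Classical in
private theorem re_card (n j : ℕ) (hj : j ≤ n) (d : (ZMod p)[X]) (hd : d ∈ Mon p j) (z : ℂ) :
    ∑ f ∈ Mon p n, (if d ∣ f then z else 0) = z * p ^ (n - j) := by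
  have h1 := sum_mult (1 : (ZMod p)[X] →* ℂ) n j hj d hd
  simp only [MonoidHom.one_apply, one_mul] at h1
  have h2 : cc (1 : (ZMod p)[X] →* ℂ) (n - j) = p ^ (n - j) := by
    unfold cc
    simp only [MonoidHom.one_apply, Finset.sum_const, card_Mon, nsmul_eq_mul, mul_one]
    push_cast
    rfl
  rw [← Finset.sum_filter, ← h2, ← h1, Finset.mul_sum]
  simp

open Classical in
private theorem re_total (h : (ZMod p)[X] →* ℂ) (g : (ZMod p)[X] →* ℤ) (ε : ℂ)
    (hg : ∀ j, ∀ d ∈ Mon p j, (g d : ℂ) = ε ^ j * h d) (n : ℕ) :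
    ((∑ f ∈ Mon p n, ∑ j ∈ Finset.range (n + 1), ∑ d ∈ (Mon p j).filter (fun d => d ∣ f), g d : ℤ) : ℂ) =
      p ^ n * ∑ j ∈ Finset.range (n + 1), cc h j * (ε / p) ^ j := by
  push_cast
  rw [Finset.sum_comm, Finset.mul_sum]
  refine Finset.sum_congr rfl fun j hj => ?_
  have hjn : j ≤ n := Nat.lt_succ_iff.1 (Finset.mem_range.1 hj)
  simp_rw [Finset.sum_filter]
  rw [Finset.sum_comm]
  have h1 : ∀ d ∈ Mon p j, ∑ f ∈ Mon p n, (if d ∣ f then ((g d : ℤ) : ℂ) else 0) =
      h d * (ε ^ j * p ^ (n - j)) := by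
    intro d hd
    rw [re_card n j hjn d hd, hg j d hd]
    ring
  rw [Finset.sum_congr rfl h1, ← Finset.sum_mul]
  have h2 : (p : ℂ) ^ n = p ^ j * p ^ (n - j) := by
    rw [← pow_add, Nat.add_sub_cancel' hjn]
  have h3 : (p : ℂ) ≠ 0 := Nat.cast_ne_zero.2 (Fact.out : p.Prime).ne_zero
  unfold cc
  rw [h2, div_pow]
  field_simp

theorem no_real (h : (ZMod p)[X] →* ℂ) (hr : ∀ f, h f = 1 ∨ h f = -1 ∨ h f = 0) (hX : h X ≠ 0) (m : ℕ)
    (hc : ∀ n, m ≤ n → cc h n = 0) (ε : ℂ) (hε : ε = 1 ∨ ε = -1) :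
    ∑ n ∈ Finset.range m, cc h n * (ε / p) ^ n ≠ 0 := by
  classical
  intro hsum
  have h0 : h 0 = 0 := by
    by_contra hne
    have h1 : ∀ f, h f = 1 := by
      intro f
      have h2 : h (0 * f) = h 0 * h f := map_mul h 0 f
      rw [zero_mul] at h2
      have h3 : h 0 * h f = h 0 * 1 := by rw [← h2, mul_one]
      exact mul_left_cancel₀ hne h3
    have h2 := hc m le_rfl
    unfold cc at h2
    rw [Finset.sum_congr rfl fun f _ => h1 f, Finset.sum_const, card_Mon, nsmul_eq_mul,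
      mul_one] at h2
    push_cast at h2
    exact (pow_ne_zero m (Nat.cast_ne_zero.2 (Fact.out : p.Prime).ne_zero)) h2
  obtain ⟨e, he, heε⟩ : ∃ e : ℤ, (e = 1 ∨ e = -1) ∧ (e : ℂ) = ε := by
    rcases hε with rfl | rfl
    · exact ⟨1, Or.inl rfl, by norm_num⟩
    · exact ⟨-1, Or.inr rfl, by norm_num⟩
  set hz : (ZMod p)[X] → ℤ := fun f => if h f = 1 then 1 else if h f = -1 then -1 else 0 with hhz
  have hcast : ∀ f, ((hz f : ℤ) : ℂ) = h f := by
    intro f
    simp only [hhz]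
    rcases hr f with h1 | h1 | h1
    · rw [h1]; simp
    · rw [h1]
      have : (-1 : ℂ) ≠ 1 := by norm_num
      simp [this]
    · rw [h1]; norm_num
  have hzmul : ∀ f f', hz (f * f') = hz f * hz f' := by
    intro f f'
    have h1 : ((hz (f * f') : ℤ) : ℂ) = ((hz f * hz f' : ℤ) : ℂ) := by
      push_cast
      rw [hcast, hcast, hcast, map_mul]
    exact_mod_cast h1
  have hz1 : hz 1 = 1 := by
    have h1 : ((hz 1 : ℤ) : ℂ) = ((1 : ℤ) : ℂ) := by
      rw [hcast, map_one]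
      norm_num
    exact_mod_cast h1
  have hz0 : hz 0 = 0 := by
    have h1 : ((hz 0 : ℤ) : ℂ) = ((0 : ℤ) : ℂ) := by
      rw [hcast, h0]
      norm_num
    exact_mod_cast h1
  let g : (ZMod p)[X] →* ℤ :=
    { toFun := fun f => e ^ f.natDegree * hz f
      map_one' := by simp [hz1]
      map_mul' := by
        intro f f'
        by_cases hf : f = 0
        · subst hf
          simp [hz0]
        by_cases hf' : f' = 0
        · subst hf'
          simp [hz0]
        rw [natDegree_mul hf hf', pow_add, hzmul]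
        ring }
  have hgdef : ∀ f, g f = e ^ f.natDegree * hz f := fun f => rfl
  have hzval : ∀ f, hz f = 1 ∨ hz f = -1 ∨ hz f = 0 := by
    intro f
    simp only [hhz]
    split_ifs <;> simp
  have hgval : ∀ f, g f = 1 ∨ g f = -1 ∨ g f = 0 := by
    intro f
    rw [hgdef]
    have h1 : e ^ f.natDegree = 1 ∨ e ^ f.natDegree = -1 := by
      rcases he with rfl | rfl
      · left; simp
      · exact neg_one_pow_eq_or ℤ _
    rcases h1 with h1 | h1 <;> rcases hzval f with h2 | h2 | h2 <;> rw [h1, h2] <;> norm_num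
  have hgX : g X ≠ 0 := by
    intro h1
    rw [hgdef] at h1
    have h2 : e ^ (X : (ZMod p)[X]).natDegree ≠ 0 := by
      apply pow_ne_zero
      rcases he with rfl | rfl <;> norm_num
    have h3 : hz X = 0 := by
      rcases mul_eq_zero.1 h1 with h4 | h4
      · exact absurd h4 h2
      · exact h4
    apply hX
    rw [← hcast, h3]
    norm_num
  have hgc : ∀ j, ∀ d ∈ Mon p j, (g d : ℂ) = ε ^ j * h d := by
    intro j d hd
    have h1 := ((mem_Mon j d).1 hd).2
    rw [hgdef, h1]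
    push_cast
    rw [hcast, heε]
  have htot := re_total h g ε hgc (2 * m)
  have hzero : ∑ j ∈ Finset.range (2 * m + 1), cc h j * (ε / p) ^ j = 0 := by
    rw [← hsum]
    symm
    refine Finset.sum_subset (Finset.range_subset_range.2 (by omega)) ?_
    intro j _ hj
    rw [hc j (by simpa using hj), zero_mul]
  rw [hzero, mul_zero] at htot
  have htot' : ∑ f ∈ Mon p (2 * m), ∑ j ∈ Finset.range (2 * m + 1),
      ∑ d ∈ (Mon p j).filter (fun d => d ∣ f), g d = 0 := by exact_mod_cast htot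
  have hXm : (X : (ZMod p)[X]) ^ (2 * m) ∈ Mon p (2 * m) :=
    (mem_Mon _ _).2 ⟨monic_X_pow _, natDegree_X_pow _⟩
  have h1 := Finset.single_le_sum
    (f := fun f => ∑ j ∈ Finset.range (2 * m + 1), ∑ d ∈ (Mon p j).filter (fun d => d ∣ f), g d)
    (fun f hf => t_nonneg g hgval (2 * m) f hf) hXm
  have h2 := t_X g hgval hgX m
  rw [htot'] at h1
  have h3 := h2.trans h1
  norm_num at h3

end Pool.Agent.Lib.NGP
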