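import Pool.Agent.Lib.NGP.Shf

/-!
# NGP / Prm: the prime of the Carlitz module

PROOF IN WORDS. `η = ζ^(m-1) ≠ 0`, `N = X^m - C η`, `M = X * N`, monic. `M.eval ζ = ζ * (ζ^m - ζ^(m-1)) = ζ^m * (ζ - 1) ≠ 0`. `a = X - C (ζ * η⁻¹) * N`: `a` is congruent to `X` modulo `N` and `a.eval 0 = ζ`. Coprime to `M`: coprime to `X` because `a.eval 0 ≠ 0`, and coprime to `N` because `a = X` modulo `N` and `X * X^(m-1) - N = C η` is a unit (`IsCoprime.mul_right`). `exists_irr_shift M .. ζ .. a`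
gives `P` with `M ∣ P - a`: `N ∣ M ∣ P - a` and `N ∣ a - X`, so `N ∣ P - X`; `X ∣ P - a`, so `P.eval 0 = a.eval 0 = ζ` (`coeff_zero_eq_eval_zero`).
-/

set_option autoImplicit false

namespace Pool.Agent.Lib.NGP

open Polynomial

variable {p : ℕ} [Fact p.Prime]

theorem exists_P (m : ℕ) (hm : 1 ≤ m) (ζ : ZMod p) (hζ0 : ζ ≠ 0) (hζ1 : ζ ≠ 1) :
    ∃ E : ℕ, ∀ e : ℕ, E ≤ e → ∃ P : (ZMod p)[X], Irreducible P ∧ P.Monic ∧ P.natDegree = e ∧
      (X ^ m - C (ζ ^ (m - 1)) : (ZMod p)[X]) ∣ P - X ∧ P.coeff 0 = ζ := by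
  have hη : ζ ^ (m - 1) ≠ 0 := pow_ne_zero _ hζ0
  set η : ZMod p := ζ ^ (m - 1) with hηdef
  have hNm : (X ^ m - C η : (ZMod p)[X]).Monic := monic_X_pow_sub_C η (by omega)
  set N : (ZMod p)[X] := X ^ m - C η with hN
  have hMm : (X * N).Monic := monic_X.mul hNm
  have hN0 : N.eval 0 = -η := by
    rw [hN]; simp [zero_pow (by omega : m ≠ 0)]
  have hpow : ζ ^ m = ζ * η := by
    rw [hηdef, ← pow_succ']; congr 1; omega
  have hMe : (X * N).eval ζ ≠ 0 := by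
    have h1 : (X * N).eval ζ = ζ * (η * (ζ - 1)) := by
      rw [eval_mul, eval_X, hN, eval_sub, eval_pow, eval_X, eval_C, hpow]; ring
    rw [h1]
    exact mul_ne_zero hζ0 (mul_ne_zero hη (sub_ne_zero.2 hζ1))
  set a : (ZMod p)[X] := X - C (ζ * η⁻¹) * N with ha
  have ha0 : a.eval 0 = ζ := by
    rw [ha, eval_sub, eval_X, eval_mul, eval_C, hN0]
    field_simp
    ring
  have hcopX : IsCoprime a X := by
    refine ⟨C ζ⁻¹, -(C ζ⁻¹ * (divX a)), ?_⟩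
    have h2 : a = X * divX a + C ζ := by
      conv_lhs => rw [← X_mul_divX_add a]
      rw [coeff_zero_eq_eval_zero, ha0]
    have h3 : (C ζ⁻¹ * C ζ : (ZMod p)[X]) = 1 := by
      rw [← C_mul, inv_mul_cancel₀ hζ0, C_1]
    calc C ζ⁻¹ * a + -(C ζ⁻¹ * divX a) * X
        = C ζ⁻¹ * (X * divX a + C ζ) + -(C ζ⁻¹ * divX a) * X := by rw [← h2]
      _ = C ζ⁻¹ * C ζ := by ring
      _ = 1 := h3
  have hcopN : IsCoprime a N := by
    have hXN : IsCoprime (X : (ZMod p)[X]) N := by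
      refine ⟨C η⁻¹ * X ^ (m - 1), -C η⁻¹, ?_⟩
      have h4 : (X : (ZMod p)[X]) ^ m = X ^ (m - 1) * X := by
        rw [← pow_succ]; congr 1; omega
      have h5 : (C η⁻¹ * C η : (ZMod p)[X]) = 1 := by
        rw [← C_mul, inv_mul_cancel₀ hη, C_1]
      calc C η⁻¹ * X ^ (m - 1) * X + -C η⁻¹ * N
          = C η⁻¹ * (X ^ (m - 1) * X) - C η⁻¹ * (X ^ m - C η) := by rw [hN]; ring
        _ = C η⁻¹ * C η := by rw [h4]; ring
        _ = 1 := h5
    have h6 : a = X + N * (-C (ζ * η⁻¹)) := by rw [ha]; ring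
    rw [h6]
    exact IsCoprime.add_mul_left_left hXN _
  obtain ⟨E, hE⟩ := exists_irr_shift (X * N) hMm ζ hMe a (hcopX.mul_right hcopN)
  refine ⟨E, fun e he => ?_⟩
  obtain ⟨P, hP1, hP2, hP3, hP4⟩ := hE e he
  refine ⟨P, hP1, hP2, hP3, ?_, ?_⟩
  · have h7 : N ∣ P - a := dvd_trans (dvd_mul_left N X) hP4
    have h8 : P - X = (P - a) + N * (-C (ζ * η⁻¹)) := by rw [ha]; ring
    rw [h8]
    exact dvd_add h7 (dvd_mul_right _ _)
  · obtain ⟨q, hq⟩ := hP4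
    have h9 : P.eval 0 = a.eval 0 := by
      have h10 : (P - a).eval 0 = 0 := by rw [hq]; simp
      rw [eval_sub, sub_eq_zero] at h10
      exact h10
    rw [coeff_zero_eq_eval_zero, h9, ha0]

end Pool.Agent.Lib.NGP
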