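import Pool.Agent.Lib.NGP.VK
import Pool.Agent.Lib.NGP.Bic
import Pool.Agent.Lib.NGP.Prm

/-!
# NGP / Main: bicliques of `NG(q, s)`, `q` a large power of an odd prime `p`, `s = (p-1) m + 1`

`ζ` a generator of the multiplicative group of `F_p`, different from 0 and 1; `P` from `exists_P`; `L`, `V` from `exists_VL`; `bic_V`. The degree
`(p - 1) m` is even; `p^m + p^(2m) < (p^e)^((p-1) m)` for `e ≥ 2`, as `p^(2m) (p^m + 1) ...`: `(p^e)^((p-1) m) ≥ p^(4m)`.
-/

set_option autoImplicit false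

namespace Pool.Agent.Lib.NGP

open SimpleGraph Pool.Agent.Lib.MP_f4a4e4_co.NGX

theorem odd_all (p : ℕ) (hp : p.Prime) (hp2 : p ≠ 2) (m : ℕ) (hm : 1 ≤ m) :
    ∃ e0 : ℕ, ∀ e : ℕ, e0 ≤ e → ∀ (F K : Type) [Field F] [Field K] [Finite K] [Algebra F K],
      Nat.card F = p ^ e → Module.finrank F K = (p - 1) * m →
        ∀ a b : ℕ, a + b = p ^ m → completeBipartiteGraph (Fin a) (Fin (b + 1)) ⊑ NormGraph F K := by
  have hpf : Fact p.Prime := ⟨hp⟩
  have hp3 : 3 ≤ p := by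
    have := hp.two_le
    omega
  obtain ⟨g, hg⟩ : ∃ ζ : ZMod p, IsPrimitiveRoot ζ (p - 1) := by
    obtain ⟨u, hu⟩ := IsCyclic.exists_generator (α := (ZMod p)ˣ)
    refine ⟨(u : ZMod p), ?_⟩
    have h1 : orderOf u = p - 1 := by
      rw [orderOf_eq_card_of_forall_mem_zpowers hu, Nat.card_eq_fintype_card, ZMod.card_units p]
    have h2 := IsPrimitiveRoot.orderOf u
    rw [h1] at h2
    exact IsPrimitiveRoot.coe_units_iff.2 h2
  have hp1 : p - 1 ≠ 0 := by omega
  have hg0 : g ≠ 0 := hg.ne_zero hp1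
  have hg1 : g ≠ 1 := hg.ne_one (by omega)
  obtain ⟨E, hE⟩ := exists_P m hm g hg0 hg1
  refine ⟨max E 2, ?_⟩
  intro e he F K _ _ _ _ hF hK a b hab
  obtain ⟨P, hP, hPm, hPe, hPM, hP0⟩ := hE e (le_trans (le_max_left _ _) he)
  obtain ⟨c, L, V, hc, hV, hVn⟩ := exists_VL hp2 m e hm hK hF g hg P hP hPm hPe hPM hP0
  refine bic_V ?_ L c hc V hVn a b (by rw [hV, hab]) ?_
  · rw [hK]
    exact (hp.even_sub_one hp2).mul_right m
  · have hfin : Finite F := Finite.of_injective (algebraMap F K) (algebraMap F K).injective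
    have hcard : Nat.card K = (p ^ e) ^ ((p - 1) * m) := by
      rw [Module.natCard_eq_pow_finrank (K := F) (V := K), hF, hK]
    rw [hcard, hV]
    have he2 : 2 ≤ e := le_trans (le_max_right _ _) he
    have h1 : p ^ m * p ^ m * (p ^ m * p ^ m) ≤ (p ^ e) ^ ((p - 1) * m) := by
      rw [← pow_add, ← pow_add, ← pow_mul]
      refine Nat.pow_le_pow_right hp.pos ?_
      have h2 : 2 * m ≤ (p - 1) * m := Nat.mul_le_mul_right m (by omega)
      have h3 : 2 * (2 * m) ≤ e * ((p - 1) * m) := Nat.mul_le_mul he2 h2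
      omega
    refine lt_of_lt_of_le ?_ h1
    have h4 : 3 ≤ p ^ m := le_trans hp3 (Nat.le_self_pow (by omega) p)
    generalize p ^ m = x at h4
    have h5 : x ≤ x * x := Nat.le_mul_self x
    have h6 : 3 * (x * x) ≤ x * x * (x * x) := Nat.mul_le_mul_right _ (le_trans h4 h5)
    have h7 : 0 < x * x := by positivity
    omega

end Pool.Agent.Lib.NGP
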