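import Pool.Agent.Lib.NGP.MonL

/-!
# NGP / NwB: multiples of a monic polynomial

PROOF IN WORDS. `g ↦ Q g` is a bijection from `Mon p (n-j)` to the `f ∈ Mon p n` divisible by `Q` (`mem_Mon`, `Monic.natDegree_mul`, `Monic.of_mul_monic_left`); `h (Q g) = h Q * h g`.
-/

set_option autoImplicit false

namespace Pool.Agent.Lib.NGP

open Polynomial

variable {p : ℕ} [Fact p.Prime]

open Classical in
theorem sum_mult (h : (ZMod p)[X] →* ℂ) (n j : ℕ) (hj : j ≤ n) (Q : (ZMod p)[X]) (hQ : Q ∈ Mon p j) :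
    ∑ f ∈ (Mon p n).filter (fun f => Q ∣ f), h f = h Q * cc h (n - j) := by
  obtain ⟨hQm, hQd⟩ := (mem_Mon j Q).1 hQ
  rw [cc, Finset.mul_sum]
  symm
  refine Finset.sum_nbij (fun g => Q * g) ?_ ?_ ?_ ?_
  · intro g hg
    obtain ⟨hgm, hgd⟩ := (mem_Mon _ g).1 hg
    rw [Finset.mem_filter, mem_Mon]
    refine ⟨⟨hQm.mul hgm, ?_⟩, dvd_mul_right Q g⟩
    rw [hQm.natDegree_mul hgm, hQd, hgd]
    omega
  · intro g _ g' _ he
    exact mul_left_cancel₀ hQm.ne_zero he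
  · intro f hf
    rw [Finset.mem_coe, Finset.mem_filter, mem_Mon] at hf
    obtain ⟨⟨hfm, hfd⟩, g, rfl⟩ := hf
    have hgm : g.Monic := hQm.of_mul_monic_left hfm
    refine ⟨g, ?_, rfl⟩
    rw [Finset.mem_coe, mem_Mon]
    refine ⟨hgm, ?_⟩
    rw [hQm.natDegree_mul hgm, hQd] at hfd
    omega
  · intro g _
    exact (map_mul h Q g).symm

end Pool.Agent.Lib.NGP
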