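import Mathlib

/-!
# NGP / Nrm: the norm as a product

`n = p - 1`, `v r = σ^r v`, `σ^r L = ζ^r L`. With `r = j m + i` the factor is `ζ^((m-1) j) (v i - ζ^(i+j) L)`; the product over `j` is
`v i ^ n - L ^ n = v i ^ n + θ`, and `v (i+1) = v i (v i ^ n + θ)` telescopes; the constants give `ζ ^ (m (m-1) n (n-1) / 2) = 1`.
-/

set_option autoImplicit false

namespace Pool.Agent.Lib.NGP

open Finset Polynomial

private theorem nrm_split {K : Type} [Field K] (f : ℕ → K) (m : ℕ) : ∀ k : ℕ,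
    ∏ r ∈ range (k * m), f r = ∏ j ∈ range k, ∏ i ∈ range m, f (j * m + i) := by
  intro k
  induction k with
  | zero => rw [Nat.zero_mul, prod_range_zero, prod_range_zero]
  | succ k ih => rw [Nat.succ_mul, prod_range_add, prod_range_succ, ih]

/-- the product over all powers of a primitive root -/
theorem prod_pow_sub {K : Type} [Field K] (n : ℕ) (hn : 0 < n) (ζ : K) (hζ : IsPrimitiveRoot ζ n) (x y : K) :
    ∏ j ∈ range n, (x - ζ ^ j * y) = x ^ n - y ^ n := by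
  rw [hζ.pow_sub_pow_eq_prod_sub_mul x y hn]
  refine prod_nbij (fun j => ζ ^ j) ?_ ?_ ?_ ?_
  · intro j _
    rw [Polynomial.mem_nthRootsFinset hn, ← pow_mul, mul_comm, pow_mul, hζ.pow_eq_one, one_pow]
  · intro a ha b hb hab
    rw [coe_range, Set.mem_Iio] at ha hb
    exact hζ.pow_inj ha hb hab
  · intro z hz
    rw [mem_coe, Polynomial.mem_nthRootsFinset hn] at hz
    have : NeZero n := ⟨hn.ne'⟩
    obtain ⟨i, hi, h⟩ := hζ.eq_pow_of_pow_eq_one hz
    refine ⟨i, ?_, h⟩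
    rw [coe_range, Set.mem_Iio]
    exact hi
  · intro j _
    rfl

private theorem nrm_shift {K : Type} [Field K] (m : ℕ) (c : K) (v : ℕ → K) (hvm : ∀ i, v (i + m) = c * v i) (i : ℕ) :
    ∀ j : ℕ, v (j * m + i) = c ^ j * v i := by
  intro j
  induction j with
  | zero => rw [Nat.zero_mul, Nat.zero_add, pow_zero, one_mul]
  | succ j ih =>
    rw [show (j + 1) * m + i = (j * m + i) + m by ring, hvm, ih, pow_succ]
    ring

private theorem nrm_tel {K : Type} [Field K] (n : ℕ) (θ : K) (v : ℕ → K) (hv : ∀ i, v (i + 1) = v i ^ (n + 1) + θ * v i) :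
    ∀ k : ℕ, (∏ i ∈ range k, (v i ^ n + θ)) * v 0 = v k := by
  intro k
  induction k with
  | zero => rw [prod_range_zero, one_mul]
  | succ k ih =>
    rw [prod_range_succ, hv, mul_right_comm, ih]
    ring

theorem prod_norm {K : Type} [Field K] (n m : ℕ) (hn : 0 < n) (hm : 0 < m) (ζ : K) (hζ : IsPrimitiveRoot ζ n)
    (θ L : K) (hL : L ^ n = -θ) (v : ℕ → K) (hv0 : v 0 ≠ 0) (hv : ∀ i, v (i + 1) = v i ^ (n + 1) + θ * v i)
    (hvm : ∀ i, v (i + m) = ζ ^ (m - 1) * v i) :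
    ∏ r ∈ range (n * m), (v r - ζ ^ r * L) = ζ ^ (m - 1) := by
  have h1 : ∀ j i : ℕ, v (j * m + i) - ζ ^ (j * m + i) * L = ζ ^ ((m - 1) * j) * (v i - ζ ^ j * (ζ ^ i * L)) := by
    intro j i
    rw [nrm_shift m _ v hvm i j, ← pow_mul, mul_sub, ← mul_assoc, ← mul_assoc, ← pow_add, ← pow_add]
    have h2 : (m - 1) * j + j + i = j * m + i := by
      obtain ⟨k, rfl⟩ : ∃ k, m = k + 1 := ⟨m - 1, by omega⟩
      rw [Nat.add_sub_cancel]
      ring
    rw [h2]
  rw [nrm_split]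
  simp only [h1]
  simp only [prod_mul_distrib]
  have h3 : ∏ j ∈ range n, ∏ _i ∈ range m, ζ ^ ((m - 1) * j) = 1 := by
    have h4 : ∏ j ∈ range n, ∏ _i ∈ range m, ζ ^ ((m - 1) * j) = ζ ^ ((m - 1) * m * ∑ j ∈ range n, j) := by
      rw [mul_sum, ← prod_pow_eq_pow_sum]
      refine prod_congr rfl fun j _ => ?_
      rw [prod_const, card_range, ← pow_mul]
      congr 1
      ring
    rw [h4]
    obtain ⟨k, hk⟩ : 2 ∣ (m - 1) * m := by
      obtain ⟨k, rfl⟩ : ∃ k, m = k + 1 := ⟨m - 1, by omega⟩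
      rw [Nat.add_sub_cancel]
      exact even_iff_two_dvd.1 (Nat.even_mul_succ_self k)
    have h5 : (m - 1) * m * ∑ j ∈ range n, j = n * (k * (n - 1)) := by
      have h6 := sum_range_id_mul_two n
      rw [hk]
      calc 2 * k * ∑ j ∈ range n, j = k * ((∑ j ∈ range n, j) * 2) := by ring
        _ = n * (k * (n - 1)) := by rw [h6]; ring
    rw [h5, pow_mul, hζ.pow_eq_one, one_pow]
  rw [h3, one_mul, prod_comm]
  have h7 : ∀ i ∈ range m, ∏ j ∈ range n, (v i - ζ ^ j * (ζ ^ i * L)) = v i ^ n + θ := by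
    intro i _
    rw [prod_pow_sub n hn ζ hζ, mul_pow, ← pow_mul, mul_comm i n, pow_mul, hζ.pow_eq_one, one_pow, one_mul, hL]
    ring
  rw [prod_congr rfl h7]
  have h8 := nrm_tel n θ v hv m
  have h9 := hvm 0
  rw [Nat.zero_add] at h9
  rw [h9] at h8
  exact mul_right_cancel₀ hv0 h8

end Pool.Agent.Lib.NGP
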