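import Pool.Agent.Lib.NGP.MonL

/-!
# NGP / NwA: the degree as a sum over prime powers dividing the polynomial

PROOF IN WORDS. `f = ∏ P^(m_P)` over irreducible monic `P` (`normalizedFactors f`, `UniqueFactorizationMonoid`), so `n = deg f = ∑_P deg P * m_P`, and `m_P = #{k ≥ 1 : P^k ∣ f}`; a pair `(P, k)` is sorted by `j = k deg P ∈ [1, n]` and `r = deg P ∣ j`, `k = j / r`. (Or by induction
`f ↦ P f` with `P` irreducible: `UniqueFactorizationMonoid.induction_on_prime`, the powers of `P` dividing `P f` are those dividing `f` and one more; `WfDvdMonoid`.)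
-/

set_option autoImplicit false

namespace Pool.Agent.Lib.NGP

open Polynomial

variable {p : ℕ} [Fact p.Prime]

private theorem nwa_mem_Irr (r : ℕ) (Q : (ZMod p)[X]) : Q ∈ Irr p r ↔ Q.Monic ∧ Irreducible Q ∧ Q.natDegree = r := by
  classical
  unfold Irr
  rw [Finset.mem_filter, mem_Mon]
  tauto

private theorem nwa_mult (Q g : (ZMod p)[X]) (hQ : Irreducible Q) (hg : g ≠ 0) :
    ∃ m : ℕ, ∀ k : ℕ, Q ^ k ∣ g ↔ k ≤ m := by
  classical
  have hfin : FiniteMultiplicity Q g := FiniteMultiplicity.of_not_isUnit hQ.not_isUnit hg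
  have hex : ∃ n : ℕ, ¬ Q ^ (n + 1) ∣ g := hfin
  refine ⟨Nat.find hex, fun k => ⟨fun h => ?_, fun h => ?_⟩⟩
  · by_contra hc
    push Not at hc
    exact Nat.find_spec hex (dvd_trans (pow_dvd_pow Q hc) h)
  · rcases Nat.eq_zero_or_pos k with hk | hk
    · subst hk; simp
    · have := Nat.find_min hex (m := k - 1) (by omega)
      rw [not_not, Nat.sub_add_cancel hk] at this
      exact this

private theorem nwa_term (Q g P : (ZMod p)[X]) (hQm : Q.Monic) (hQ : Irreducible Q) (hPm : P.Monic)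
    (hP : Irreducible P) (m k r : ℕ) (hk : 1 ≤ k)
    (hm : ∀ k : ℕ, Q ^ k ∣ g ↔ k ≤ m) [Decidable (P ^ k ∣ Q * g)] [Decidable (P ^ k ∣ g)] [Decidable (P = Q ∧ k = m + 1)] :
    (if P ^ k ∣ Q * g then r else 0) = (if P ^ k ∣ g then r else 0) + (if P = Q ∧ k = m + 1 then r else 0) := by
  by_cases hPQ : P = Q
  · subst hPQ
    have h1 : P ^ k ∣ P * g ↔ k ≤ m + 1 := by
      obtain ⟨l, rfl⟩ : ∃ l, k = l + 1 := ⟨k - 1, by omega⟩
      rw [pow_succ', mul_dvd_mul_iff_left hP.ne_zero, hm]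
      omega
    have h2 := hm k
    by_cases a : k ≤ m
    · rw [if_pos (h1.2 (by omega)), if_pos (h2.2 a), if_neg (by omega), add_zero]
    · by_cases b : k = m + 1
      · rw [if_pos (h1.2 (by omega)), if_neg (fun h => a (h2.1 h)), if_pos ⟨rfl, b⟩, zero_add]
      · rw [if_neg (fun h => by have := h1.1 h; omega), if_neg (fun h => a (h2.1 h)), if_neg (by tauto)]
  · have hc : IsCoprime P Q := by
      rw [Irreducible.coprime_iff_not_dvd hP]
      intro hd
      exact hPQ (eq_of_monic_of_associated hPm hQm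
        ((Irreducible.dvd_irreducible_iff_associated hP hQ).1 hd))
    have h3 : P ^ k ∣ Q * g ↔ P ^ k ∣ g := ⟨fun h => (hc.pow_left).dvd_of_dvd_mul_left h, fun h => dvd_mul_of_dvd_right h _⟩
    have h4 : ¬ (P = Q ∧ k = m + 1) := fun h => hPQ h.1
    rw [if_neg h4, add_zero]
    by_cases h5 : P ^ k ∣ g
    · rw [if_pos h5, if_pos (h3.2 h5)]
    · rw [if_neg h5, if_neg (fun h => h5 (h3.1 h))]

open Classical in
private theorem nwa_main (N : ℕ) (f : (ZMod p)[X]) : f ≠ 0 → f.natDegree ≤ N →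
    f.natDegree = ∑ j ∈ Finset.Icc 1 N, ∑ r ∈ j.divisors, ∑ P ∈ Irr p r, if P ^ (j / r) ∣ f then r else 0 := by
  refine WfDvdMonoid.induction_on_irreducible (motive := fun f : (ZMod p)[X] => f ≠ 0 → f.natDegree ≤ N →
    f.natDegree = ∑ j ∈ Finset.Icc 1 N, ∑ r ∈ j.divisors, ∑ P ∈ Irr p r, if P ^ (j / r) ∣ f then r else 0) f
    (fun h => absurd rfl h) ?_ ?_
  · intro u hu _ _
    rw [natDegree_eq_zero_of_isUnit hu]
    symm
    refine Finset.sum_eq_zero fun j hj => Finset.sum_eq_zero fun r hr => Finset.sum_eq_zero fun P hP => ?_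
    rw [Finset.mem_Icc] at hj
    have hr' := Nat.dvd_of_mem_divisors hr
    have hk : j / r ≠ 0 := by
      have := Nat.div_pos (Nat.le_of_dvd (by omega) hr') (Nat.pos_of_mem_divisors hr)
      omega
    rw [nwa_mem_Irr] at hP
    rw [if_neg]
    intro hd
    exact hP.2.1.not_isUnit (isUnit_of_dvd_unit (dvd_trans (dvd_pow_self P hk) hd) hu)
  · intro g Q1 hg hQ1 ih hne1 hdeg1
    have hQ10 : Q1 ≠ 0 := hQ1.ne_zero
    have hunit : IsUnit (C (leadingCoeff Q1)⁻¹ : (ZMod p)[X]) :=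
      isUnit_C.mpr (isUnit_iff_ne_zero.mpr (inv_ne_zero (leadingCoeff_ne_zero.mpr hQ10)))
    obtain ⟨Q, hQm, hass⟩ : ∃ Q : (ZMod p)[X], Q.Monic ∧ Associated Q1 Q :=
      ⟨Q1 * C (leadingCoeff Q1)⁻¹, monic_mul_leadingCoeff_inv hQ10,
        (associated_mul_unit_right Q1 _ hunit)⟩
    have hQ : Irreducible Q := hass.irreducible hQ1
    have hQ0 := hQ.ne_zero
    have hgg : Associated (Q1 * g) (Q * g) := hass.mul_right g
    have hndQ : (Q1 * g).natDegree = (Q * g).natDegree :=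
      natDegree_eq_of_degree_eq (degree_eq_degree_of_associated hgg)
    have hne : Q * g ≠ 0 := mul_ne_zero hQ0 hg
    have hdeg : (Q * g).natDegree ≤ N := by rw [← hndQ]; exact hdeg1
    rw [hndQ]
    simp only [hgg.dvd_iff_dvd_right]
    have hnd : (Q * g).natDegree = Q.natDegree + g.natDegree := natDegree_mul hQ0 hg
    have hg1 := ih hg (by omega)
    obtain ⟨m, hm⟩ := nwa_mult Q g hQ hg
    have hqpos : 0 < Q.natDegree := hQ.natDegree_pos
    have hle : Q.natDegree * (m + 1) ≤ N := by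
      have h1 : Q ^ (m + 1) ∣ Q * g := by
        rw [pow_succ', mul_dvd_mul_iff_left hQ0]
        exact (hm m).2 le_rfl
      have h2 := natDegree_le_of_dvd h1 hne
      rw [natDegree_pow] at h2
      rw [mul_comm]
      omega
    have hsplit : (∑ j ∈ Finset.Icc 1 N, ∑ r ∈ j.divisors, ∑ P ∈ Irr p r, if P ^ (j / r) ∣ Q * g then r else 0) =
        (∑ j ∈ Finset.Icc 1 N, ∑ r ∈ j.divisors, ∑ P ∈ Irr p r, if P ^ (j / r) ∣ g then r else 0) +
        ∑ j ∈ Finset.Icc 1 N, ∑ r ∈ j.divisors, ∑ P ∈ Irr p r, if P = Q ∧ j / r = m + 1 then r else 0 := by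
      rw [← Finset.sum_add_distrib]
      refine Finset.sum_congr rfl fun j hj => ?_
      rw [← Finset.sum_add_distrib]
      refine Finset.sum_congr rfl fun r hr => ?_
      rw [← Finset.sum_add_distrib]
      refine Finset.sum_congr rfl fun P hP => ?_
      rw [Finset.mem_Icc] at hj
      have hr' := Nat.dvd_of_mem_divisors hr
      have hk : 1 ≤ j / r := Nat.div_pos (Nat.le_of_dvd (by omega) hr') (Nat.pos_of_mem_divisors hr)
      rw [nwa_mem_Irr] at hP
      exact nwa_term Q g P hQm hQ hP.1 hP.2.1 m (j / r) r hk hm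
    rw [hsplit, ← hg1, hnd, add_comm]
    congr 1
    symm
    rw [Finset.sum_eq_single (Q.natDegree * (m + 1))]
    · rw [Finset.sum_eq_single Q.natDegree]
      · rw [Finset.sum_eq_single Q]
        · rw [if_pos ⟨rfl, Nat.mul_div_cancel_left _ hqpos⟩]
        · intro P _ hPQ
          rw [if_neg (fun h => hPQ h.1)]
        · intro h
          exact absurd ((nwa_mem_Irr _ _).2 ⟨hQm, hQ, rfl⟩) h
      · intro r _ hr
        refine Finset.sum_eq_zero fun P hP => ?_
        rw [nwa_mem_Irr] at hP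
        rw [if_neg]
        rintro ⟨h, -⟩
        subst h
        exact hr hP.2.2.symm
      · intro h
        exact absurd (Nat.mem_divisors.2 ⟨Dvd.intro _ rfl, by positivity⟩) h
    · intro j hj hne2
      refine Finset.sum_eq_zero fun r hr => Finset.sum_eq_zero fun P hP => ?_
      rw [nwa_mem_Irr] at hP
      rw [if_neg]
      rintro ⟨h, h2⟩
      subst h
      obtain ⟨h3, -⟩ := Nat.mem_divisors.1 hr
      apply hne2
      rw [hP.2.2, ← h2, Nat.mul_div_cancel' h3]
    · intro h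
      exact absurd (Finset.mem_Icc.2 ⟨by have : 1 ≤ Q.natDegree * (m + 1) := Nat.mul_pos hqpos (by omega); exact this, hle⟩) h

open Classical in
theorem deg_eq (n : ℕ) (f : (ZMod p)[X]) (hf : f ∈ Mon p n) :
    n = ∑ j ∈ Finset.Icc 1 n, ∑ r ∈ j.divisors, ∑ P ∈ (Irr p r).filter (fun P => P ^ (j / r) ∣ f), r := by
  rw [mem_Mon] at hf
  have h := nwa_main n f hf.1.ne_zero hf.2.le
  rw [hf.2] at h
  refine h.trans (Finset.sum_congr rfl fun j _ => Finset.sum_congr rfl fun r _ => ?_)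
  rw [Finset.sum_filter]

end Pool.Agent.Lib.NGP
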