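import Pool.Agent.Lib.NGP.Dir

/-!
# NGP / Shf: irreducible polynomials in residue classes, the modulus may be divisible by X

PROOF IN WORDS. `exists_irr` needs `X` coprime to the modulus. Substitute `X + C c` (a ring automorphism of `(ZMod p)[X]`, inverse `X - C c`; `Polynomial.comp`, or `Polynomial.algEquivAevalXAddC`, `Polynomial.taylor c`): `M' = M.comp (X + C c)` is monic (`Monic.comp_X_add_C`), `M'.eval 0 = M.eval c ≠ 0`, so `X` is prime and does not divide `M'`, `IsCoprime X M'`; `a' = a.comp (X + C c)` is coprime to `M'` (map the Bezout identity).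
`exists_irr M' .. a'` gives `P'` of degree `e`; `P = P'.comp (X - C c)` is irreducible (automorphism), monic, of the same degree (`natDegree_comp`), and `M = M'.comp (X - C c)` divides `P - a`.
-/

set_option autoImplicit false

namespace Pool.Agent.Lib.NGP

open Polynomial

variable {p : ℕ} [Fact p.Prime]

private theorem shf_comp (f : (ZMod p)[X]) (c : ZMod p) : (f.comp (X + C c)).comp (X + C (-c)) = f := by
  rw [comp_assoc, add_comp, X_comp, C_comp, add_assoc, ← C_add, neg_add_cancel, C_0, add_zero, comp_X]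

private theorem shf_irr (f : (ZMod p)[X]) (c : ZMod p) (hf : Irreducible f) : Irreducible (f.comp (X + C c)) := by
  have h : f.comp (X + C c) = algEquivAevalXAddC c f := rfl
  rw [h]
  exact (MulEquiv.irreducible_iff (algEquivAevalXAddC c)).2 hf

theorem exists_irr_shift (M : (ZMod p)[X]) (hM : M.Monic) (c : ZMod p) (hc : M.eval c ≠ 0) (a : (ZMod p)[X])
    (ha : IsCoprime a M) :
    ∃ E : ℕ, ∀ e : ℕ, E ≤ e → ∃ P : (ZMod p)[X], Irreducible P ∧ P.Monic ∧ P.natDegree = e ∧ M ∣ P - a := by
  have hX : IsCoprime X (M.comp (X + C c)) := by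
    refine (irreducible_X.coprime_iff_not_dvd).2 fun h => hc ?_
    rw [X_dvd_iff, coeff_zero_eq_eval_zero, eval_comp, eval_add, eval_X, eval_C, zero_add] at h
    exact h
  have ha' : IsCoprime (a.comp (X + C c)) (M.comp (X + C c)) := ha.map (compRingHom (X + C c))
  obtain ⟨E, hE⟩ := exists_irr (M.comp (X + C c)) (hM.comp_X_add_C c) hX (a.comp (X + C c)) ha'
  refine ⟨E, fun e he => ?_⟩
  obtain ⟨P, h1, h2, h3, h4⟩ := hE e he
  refine ⟨P.comp (X + C (-c)), shf_irr P _ h1, h2.comp_X_add_C _, ?_, ?_⟩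
  · rw [natDegree_comp, natDegree_X_add_C, mul_one, h3]
  · obtain ⟨Q, hQ⟩ := h4
    refine ⟨Q.comp (X + C (-c)), ?_⟩
    have h5 := congrArg (fun f => f.comp (X + C (-c))) hQ
    simp only [sub_comp, mul_comp, shf_comp] at h5
    exact h5

end Pool.Agent.Lib.NGP
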