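import Mathlib

/-!
# NGP / VKa: the root `b`

`F` has `p^e` elements, `P` of degree `e` is irreducible: `AdjoinRoot P` is isomorphic to `F`; `b` = the image of the root. If `b^m = c`, then
`X^m - c` and so `P - X` vanish at `b`: `b = 0`, `c = 0`. The norm of `b` to `F_p` is `(-1)^e P(0)` and also `b^(1 + p + ... + p^(e-1))`.
-/

set_option autoImplicit false

namespace Pool.Agent.Lib.NGP

open Polynomial

/-- the sum `1 + p + ... + p^(e-1)` -/
theorem geom (p : ℕ) (hp : 1 ≤ p) (e : ℕ) : p ^ e = (p - 1) * (∑ i ∈ Finset.range e, p ^ i) + 1 := by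
  induction e with
  | zero => simp
  | succ e ih =>
    rw [Finset.sum_range_succ, mul_add]
    have h1 : p ^ (e + 1) = (p - 1) * p ^ e + p ^ e := by
      obtain ⟨k, rfl⟩ : ∃ k, p = k + 1 := ⟨p - 1, by omega⟩
      rw [Nat.add_sub_cancel, pow_succ]
      ring
    rw [h1]
    omega

theorem neg_one_sum {R : Type} [Ring R] (p : ℕ) (hp : Odd p) (e : ℕ) :
    (-1 : R) ^ (∑ i ∈ Finset.range e, p ^ i) = (-1) ^ e := by
  induction e with
  | zero => simp
  | succ e ih =>
    rw [Finset.sum_range_succ, pow_add, ih, (hp.pow (n := e)).neg_one_pow, pow_succ]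

theorem exists_b {p : ℕ} [Fact p.Prime] (hp2 : p ≠ 2) {F : Type} [Field F] [Algebra (ZMod p) F] (m e : ℕ) (hm : 1 ≤ m)
    (hF : Nat.card F = p ^ e) (c : ZMod p) (hc : c ≠ 0)
    (P : (ZMod p)[X]) (hP : Irreducible P) (hPm : P.Monic) (hPe : P.natDegree = e)
    (hPM : (X ^ m - C c : (ZMod p)[X]) ∣ P - X) :
    ∃ b : F, aeval b P = 0 ∧ b ^ m ≠ algebraMap (ZMod p) F c ∧
      (-b) ^ (∑ i ∈ Finset.range e, p ^ i) = algebraMap (ZMod p) F (P.coeff 0) := by
  have hFact : Fact (Irreducible P) := ⟨hP⟩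
  have hp : p.Prime := Fact.out
  have he : e ≠ 0 := by
    rw [← hPe]
    exact hP.natDegree_pos.ne'
  have hfin : Module.Finite (ZMod p) (AdjoinRoot P) := (AdjoinRoot.powerBasis hP.ne_zero).finite
  have hfr : Module.finrank (ZMod p) (AdjoinRoot P) = e := by
    rw [(AdjoinRoot.powerBasis hP.ne_zero).finrank, AdjoinRoot.powerBasis_dim, hPe]
  have hcard : Nat.card (AdjoinRoot P) = p ^ e := by
    rw [Module.natCard_eq_pow_finrank (K := ZMod p), hfr]
    simp
  let φ : AdjoinRoot P ≃ₐ[ZMod p] F :=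
    (GaloisField.algEquivGaloisField p e hcard).trans
      (GaloisField.algEquivGaloisField p e hF).symm
  have hroot : aeval (φ (AdjoinRoot.root P)) P = 0 := by
    have h1 : aeval (φ (AdjoinRoot.root P)) P = φ (aeval (AdjoinRoot.root P) P) := by
      exact aeval_algHom_apply φ.toAlgHom (AdjoinRoot.root P) P
    rw [h1, AdjoinRoot.aeval_eq, AdjoinRoot.mk_self, map_zero]
  refine ⟨φ (AdjoinRoot.root P), hroot, fun hb => ?_, ?_⟩
  · set b := φ (AdjoinRoot.root P) with hbdef
    have h1 : aeval b (X ^ m - C c : (ZMod p)[X]) = 0 := by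
      rw [map_sub, map_pow, aeval_X, aeval_C, hb, sub_self]
    obtain ⟨Q, hQ⟩ := hPM
    have h2 : aeval b (P - X) = 0 := by rw [hQ, map_mul, h1, zero_mul]
    rw [map_sub, hroot, aeval_X, zero_sub, neg_eq_zero] at h2
    rw [h2, zero_pow (by omega)] at hb
    exact hc ((map_eq_zero _).1 hb.symm)
  · have hfinF : Finite F := Nat.finite_of_card_ne_zero (by rw [hF]; exact pow_ne_zero _ hp.ne_zero)
    have hfrF : Module.finrank (ZMod p) F = e := by
      rw [← hfr]
      exact φ.toLinearEquiv.finrank_eq.symm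
    have h1 := FiniteField.algebraMap_norm_eq_pow_sum (ZMod p) F (φ (AdjoinRoot.root P))
    rw [hfrF, Nat.card_zmod] at h1
    have h2 : Algebra.norm (ZMod p) (φ (AdjoinRoot.root P)) = (-1) ^ e * P.coeff 0 := by
      rw [Algebra.norm_eq_of_algEquiv]
      have h3 := Algebra.PowerBasis.norm_gen_eq_coeff_zero_minpoly (AdjoinRoot.powerBasis hP.ne_zero)
      rw [AdjoinRoot.powerBasis_gen, AdjoinRoot.powerBasis_dim, hPe, AdjoinRoot.minpoly_root hP.ne_zero,
        hPm.leadingCoeff, inv_one, C_1, mul_one] at h3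
      exact h3
    rw [neg_pow, ← h1, h2, neg_one_sum p (hp.odd_of_ne_two hp2), map_mul, map_pow, map_neg, map_one, ← mul_assoc,
      ← pow_add, ← two_mul, pow_mul, neg_one_sq, one_pow, one_mul]

theorem descent {K Ω : Type} [Field K] [Finite K] [Field Ω] [Algebra K Ω] (y : Ω) (h : y ^ Nat.card K = y) :
    ∃ x : K, algebraMap K Ω x = y := by
  have hs : Splits (X ^ (Nat.card K) - X : K[X]) := Polynomial.splits_X_pow_nat_card_sub_X
  have h1 : (X ^ (Nat.card K) - X : K[X]) = (Multiset.map (fun a => X - C a)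
      (X ^ (Nat.card K) - X : K[X]).roots).prod := by
    have h2 := hs.eq_prod_roots_of_monic (by
      refine monic_X_pow_sub ?_
      rw [degree_X]
      exact_mod_cast (Finite.one_lt_card : 1 < Nat.card K))
    exact h2
  have h3 : aeval y (X ^ (Nat.card K) - X : K[X]) = 0 := by
    rw [map_sub, map_pow, aeval_X, h, sub_self]
  rw [h1, map_multiset_prod, Multiset.map_map, Multiset.prod_eq_zero_iff] at h3
  rw [Multiset.mem_map] at h3
  obtain ⟨a, -, ha⟩ := h3
  refine ⟨a, ?_⟩
  simp only [Function.comp_apply, map_sub, aeval_X, aeval_C] at ha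
  exact (sub_eq_zero.1 ha).symm

end Pool.Agent.Lib.NGP
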