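import Mathlib

/-!
# NGP / VKb: the eigenvectors of `T^m`

Polynomials `p 0 = X`, `p (n+1) = p n ^ p + C b * p n`: `p n` is monic of degree `p^n`, `eval y (p n) = (T^n) y`, `derivative (p n) = C (b^n)`.
`G = p m - C c * X` is monic of degree `p^m` with derivative the nonzero constant `b^m - c`, so it has `p^m` different roots.
-/

set_option autoImplicit false

namespace Pool.Agent.Lib.NGP

open Polynomial

private noncomputable def pp {Ω : Type} [Field Ω] (p : ℕ) (b : Ω) : ℕ → Polynomial Ω
  | 0 => X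
  | n + 1 => pp p b n ^ p + C b * pp p b n

private lemma pp_monic {Ω : Type} [Field Ω] (p : ℕ) (hp : 1 < p) (b : Ω) (n : ℕ) :
    (pp p b n).Monic ∧ (pp p b n).natDegree = p ^ n := by
  induction n with
  | zero => exact ⟨monic_X, by rw [pp, natDegree_X, pow_zero]⟩
  | succ n ih =>
    have hm2 : (pp p b n ^ p).Monic := ih.1.pow p
    have hd2 : (pp p b n ^ p).natDegree = p ^ (n + 1) := by
      rw [ih.1.natDegree_pow, ih.2]
      ring
    have hlt : (C b * pp p b n).natDegree < (pp p b n ^ p).natDegree := by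
      refine lt_of_le_of_lt (natDegree_C_mul_le _ _) ?_
      rw [hd2, ih.2]
      exact Nat.pow_lt_pow_right hp (Nat.lt_succ_self n)
    have hlt' : (C b * pp p b n).degree < (pp p b n ^ p).degree :=
      degree_lt_degree hlt
    refine ⟨?_, ?_⟩
    · rw [pp]
      exact hm2.add_of_left hlt'
    · rw [pp, natDegree_add_eq_left_of_natDegree_lt hlt, hd2]

private lemma pp_deriv {Ω : Type} [Field Ω] (p : ℕ) [CharP Ω p] (b : Ω) (n : ℕ) :
    derivative (pp p b n) = C (b ^ n) := by
  induction n with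
  | zero => rw [pp, derivative_X, pow_zero, C_1]
  | succ n ih =>
    rw [pp, derivative_add, derivative_mul, derivative_C, zero_mul, zero_add, ih, derivative_pow]
    have h2 : ((p : ℕ) : Ω) = 0 := CharP.cast_eq_zero Ω p
    rw [h2, C_0, zero_mul, zero_mul, zero_add, ← C_mul]
    congr 1
    ring

private lemma pp_eval {Ω : Type} [Field Ω] (p : ℕ) [Algebra (ZMod p) Ω] (b : Ω)
    (T : Module.End (ZMod p) Ω) (hT : ∀ y, T y = y ^ p + b * y) (n : ℕ) (y : Ω) :
    eval y (pp p b n) = (T ^ n) y := by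
  induction n with
  | zero => rw [pp, eval_X, pow_zero, Module.End.one_apply]
  | succ n ih =>
    have h1 : (T ^ (n + 1)) y = T ((T ^ n) y) := by
      rw [pow_succ' T n, Module.End.mul_apply]
    rw [pp, eval_add, eval_pow, eval_mul, eval_C, ih, h1, hT]

theorem roots_T {p : ℕ} [Fact p.Prime] {Ω : Type} [Field Ω] [IsAlgClosed Ω] [Algebra (ZMod p) Ω] (b : Ω) (m : ℕ)
    (hm : m ≠ 0) (c : ZMod p) (hb : b ^ m ≠ algebraMap (ZMod p) Ω c)
    (T : Module.End (ZMod p) Ω) (hT : ∀ y, T y = y ^ p + b * y) :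
    ∃ W : Finset Ω, W.card = p ^ m ∧ ∀ y ∈ W, (T ^ m) y = c • y := by
  classical
  have hp : p.Prime := Fact.out
  have : CharP Ω p := charP_of_injective_algebraMap (algebraMap (ZMod p) Ω).injective p
  set G : Polynomial Ω := pp p b m - C (algebraMap (ZMod p) Ω c) * X with hG
  have hlt : (C (algebraMap (ZMod p) Ω c) * X : Polynomial Ω).natDegree < (pp p b m).natDegree := by
    rw [(pp_monic p hp.one_lt b m).2]
    refine lt_of_le_of_lt (natDegree_C_mul_le _ _) ?_
    rw [natDegree_X]
    exact Nat.one_lt_pow hm hp.one_lt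
  have hdeg : G.natDegree = p ^ m := by
    rw [hG, natDegree_sub_eq_left_of_natDegree_lt hlt, (pp_monic p hp.one_lt b m).2]
  have hG0 : G ≠ 0 := by
    intro h
    rw [h, natDegree_zero] at hdeg
    have : 0 < p ^ m := pow_pos hp.pos m
    omega
  have hder : derivative G = C (b ^ m - algebraMap (ZMod p) Ω c) := by
    rw [hG, derivative_sub, derivative_C_mul, derivative_X, pp_deriv, mul_one, C_sub]
  have hsep : G.Separable := by
    have hc : b ^ m - algebraMap (ZMod p) Ω c ≠ 0 := sub_ne_zero.mpr hb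
    rw [Polynomial.separable_def, hder]
    exact ⟨0, C ((b ^ m - algebraMap (ZMod p) Ω c)⁻¹), by rw [zero_mul, zero_add, ← C_mul, inv_mul_cancel₀ hc, C_1]⟩
  refine ⟨G.roots.toFinset, ?_, ?_⟩
  · rw [Multiset.toFinset_card_of_nodup (nodup_roots hsep), ← hdeg]
    exact (splits_iff_card_roots).mp (IsAlgClosed.splits G)
  · intro y hy
    rw [Multiset.mem_toFinset, mem_roots hG0, IsRoot.def, hG, eval_sub, eval_mul, eval_C, eval_X, pp_eval p b T hT] at hy
    rw [Algebra.smul_def]
    exact sub_eq_zero.mp hy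

end Pool.Agent.Lib.NGP
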