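import Pool.Agent.Lib.NGP.Carl
import Pool.Agent.Lib.NGP.VKa
import Pool.Agent.Lib.NGP.VKb
import Pool.Agent.Lib.NGP.Nrm

/-!
# NGP / VK: the points and the constant norm

`F` has characteristic `p`; `F`, `K`, `Ω = AlgebraicClosure K` are algebras over `ZMod p`; `b` from `exists_b` with `c = ζ^(m-1)`, `β` its image in `Ω`,
`T y = y^p + β y`, `W` from `roots_T`. For `y` with `T^m y = c y`: `P = X + (X^m - c) H`, so `y^q = T y` (`carlitz`), `y^(q^j) = T^j y`,
`y^(card K) = T^((p-1) m) y = c^(p-1) y = y`: `y` comes from `K`. `l^(p-1) = - β` gives `l^q = (-β)^(1 + p + ... + p^(e-1)) l = P(0) l = ζ l`,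
so `l^(q^j) = ζ^j l` and `l` comes from `K`. The norm of `x - y - L` is the product of the `T^i δ - ζ^i l`, which is `ζ^(m-1)` by `prod_norm`.
-/

set_option autoImplicit false

namespace Pool.Agent.Lib.NGP

open Polynomial

private theorem pow_fix {p : ℕ} [Fact p.Prime] {Ω : Type} [Field Ω] [Algebra (ZMod p) Ω] (m e : ℕ) (c : ZMod p) (β : Ω)
    (P : (ZMod p)[X]) (hP : Irreducible P) (hPm : P.Monic) (hPe : P.natDegree = e)
    (hPM : (X ^ m - C c : (ZMod p)[X]) ∣ P - X) (hβ : aeval β P = 0)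
    (T : Module.End (ZMod p) Ω) (hT : ∀ y, T y = y ^ p + β * y) (y : Ω) (hy : (T ^ m) y = c • y) :
    y ^ p ^ e = T y := by
  obtain ⟨H, hH⟩ := hPM
  have h1 : P = X + H * (X ^ m - C c) := by
    have h2 : P = X + (P - X) := by ring
    rw [h2, hH]
    ring
  have h3 := carlitz β P hP hPm hβ T hT y
  rw [hPe] at h3
  rw [← h3]
  conv_lhs => rw [h1]
  rw [map_add, map_mul, map_sub, map_pow, aeval_C, aeval_X, LinearMap.add_apply, Module.End.mul_apply,
    LinearMap.sub_apply, hy, Module.algebraMap_end_apply, sub_self, map_zero, add_zero]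

private theorem eig {p : ℕ} [Fact p.Prime] {Ω : Type} [Field Ω] [Algebra (ZMod p) Ω] (m : ℕ) (c : ZMod p)
    (T : Module.End (ZMod p) Ω) (y : Ω) (hy : (T ^ m) y = c • y) (j : ℕ) : (T ^ m) ((T ^ j) y) = c • (T ^ j) y := by
  rw [← Module.End.mul_apply, ← pow_add, add_comm, pow_add, Module.End.mul_apply, hy, map_smul]

private theorem eig_pow {p : ℕ} [Fact p.Prime] {Ω : Type} [Field Ω] [Algebra (ZMod p) Ω] (m : ℕ) (c : ZMod p)
    (T : Module.End (ZMod p) Ω) (y : Ω) (hy : (T ^ m) y = c • y) (k : ℕ) : (T ^ (k * m)) y = c ^ k • y := by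
  induction k with
  | zero => simp
  | succ k ih =>
    rw [Nat.succ_mul, pow_add, Module.End.mul_apply, hy, map_smul, ih, smul_smul, pow_succ, mul_comm]

private theorem pow_iter {p : ℕ} [Fact p.Prime] {Ω : Type} [Field Ω] [Algebra (ZMod p) Ω] (m e : ℕ) (c : ZMod p) (β : Ω)
    (P : (ZMod p)[X]) (hP : Irreducible P) (hPm : P.Monic) (hPe : P.natDegree = e)
    (hPM : (X ^ m - C c : (ZMod p)[X]) ∣ P - X) (hβ : aeval β P = 0)
    (T : Module.End (ZMod p) Ω) (hT : ∀ y, T y = y ^ p + β * y) (y : Ω) (hy : (T ^ m) y = c • y) (j : ℕ) :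
    y ^ (p ^ e) ^ j = (T ^ j) y := by
  induction j with
  | zero => simp
  | succ j ih =>
    rw [pow_succ, pow_mul, ih, pow_fix m e c β P hP hPm hPe hPM hβ T hT _ (eig m c T y hy j), ← Module.End.mul_apply,
      ← pow_succ']

theorem exists_VL {p : ℕ} [Fact p.Prime] (hp2 : p ≠ 2) {F K : Type} [Field F] [Field K] [Finite K] [Algebra F K] (m e : ℕ)
    (hm : 1 ≤ m) (hK : Module.finrank F K = (p - 1) * m) (hF : Nat.card F = p ^ e) (ζ : ZMod p)
    (hζ : IsPrimitiveRoot ζ (p - 1)) (P : (ZMod p)[X]) (hP : Irreducible P) (hPm : P.Monic)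
    (hPe : P.natDegree = e) (hPM : (X ^ m - C (ζ ^ (m - 1)) : (ZMod p)[X]) ∣ P - X) (hP0 : P.coeff 0 = ζ) :
    ∃ (c : F) (L : K) (V : Finset K), c ≠ 0 ∧ V.card = p ^ m ∧
      ∀ x ∈ V, ∀ y ∈ V, x ≠ y → Algebra.norm F (x - y - L) = c := by
  classical
  have hp : p.Prime := Fact.out
  have hp1 : 0 < p - 1 := by
    have := hp.two_le
    omega
  have : Finite F := Finite.of_injective (algebraMap F K) (algebraMap F K).injective
  have he : e ≠ 0 := by
    rw [← hPe]
    exact hP.natDegree_pos.ne'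
  have hcF : CharP F p := by
    letI := Fintype.ofFinite F
    obtain ⟨p', hp', n, hpp', hn⟩ := FiniteField.card' F
    have h1 : p' = p := by
      rw [← Nat.card_eq_fintype_card, hF] at hn
      have h2 : p ∣ p' ^ (n : ℕ) := by rw [← hn]; exact dvd_pow_self p he
      exact ((Nat.prime_dvd_prime_iff_eq hp hpp').1 (hp.dvd_of_dvd_pow h2)).symm
    rw [← h1]
    exact hp'
  have hcK : CharP K p := charP_of_injective_algebraMap (algebraMap F K).injective p
  letI aF : Algebra (ZMod p) F := ZMod.algebra F p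
  letI aK : Algebra (ZMod p) K := ZMod.algebra K p
  have hζ0 : ζ ≠ 0 := hζ.ne_zero hp1.ne'
  have hc0 : ζ ^ (m - 1) ≠ 0 := pow_ne_zero _ hζ0
  obtain ⟨b, hb1, hb2, hb3⟩ := exists_b (F := F) hp2 m e hm hF _ hc0 P hP hPm hPe hPM
  rw [hP0] at hb3
  set φ : F →+* AlgebraicClosure K := (algebraMap K (AlgebraicClosure K)).comp (algebraMap F K) with hφ
  have hφz : ∀ a : ZMod p, φ (algebraMap (ZMod p) F a) = algebraMap (ZMod p) (AlgebraicClosure K) a := by
    intro a
    have h1 : φ.comp (algebraMap (ZMod p) F) = algebraMap (ZMod p) (AlgebraicClosure K) := Subsingleton.elim _ _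
    rw [← h1]
    rfl
  have hβ : aeval (φ b) P = 0 := by
    have h1 : φ (aeval b P) = 0 := by rw [hb1, map_zero]
    rw [aeval_def, hom_eval₂] at h1
    rw [aeval_def]
    convert h1 using 2
    exact Subsingleton.elim _ _
  have hβm : (φ b) ^ m ≠ algebraMap (ZMod p) (AlgebraicClosure K) (ζ ^ (m - 1)) := by
    intro h
    apply hb2
    apply φ.injective
    rw [map_pow, h, hφz]
  have hcΩ : CharP (AlgebraicClosure K) p :=
    charP_of_injective_algebraMap (algebraMap K (AlgebraicClosure K)).injective p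
  let T0 : AlgebraicClosure K →+ AlgebraicClosure K :=
    { toFun := fun y => y ^ p + φ b * y
      map_zero' := by
        rw [zero_pow hp.ne_zero, mul_zero, add_zero]
      map_add' := fun x y => by
        rw [add_pow_char]
        ring }
  let T : Module.End (ZMod p) (AlgebraicClosure K) := T0.toZModLinearMap p
  have hT : ∀ y, T y = y ^ p + φ b * y := fun y => rfl
  obtain ⟨W, hW1, hW2⟩ := roots_T (φ b) m (by omega) _ hβm T hT
  have hcard : Nat.card K = (p ^ e) ^ ((p - 1) * m) := by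
    rw [Module.natCard_eq_pow_finrank (K := F) (V := K), hF, hK]
  have hcp : (ζ ^ (m - 1)) ^ (p - 1) = 1 := by
    rw [← pow_mul, mul_comm, pow_mul, hζ.pow_eq_one, one_pow]
  have hdesc : ∀ y : W, ∃ x : K, algebraMap K (AlgebraicClosure K) x = y.1 := by
    intro y
    apply descent
    rw [hcard, pow_iter m e _ (φ b) P hP hPm hPe hPM hβ T hT y.1 (hW2 _ y.2), eig_pow m _ T y.1 (hW2 _ y.2), hcp, one_smul]
  choose g hg using hdesc
  -- the element `l`
  set z : AlgebraicClosure K := algebraMap (ZMod p) (AlgebraicClosure K) ζ with hz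
  have hzp : IsPrimitiveRoot z (p - 1) := hζ.map_of_injective (algebraMap (ZMod p) (AlgebraicClosure K)).injective
  have hzq : z ^ p ^ e = z := by
    rw [hz, ← map_pow, ZMod.pow_card_pow]
  obtain ⟨l, hl⟩ := IsAlgClosed.exists_pow_nat_eq (-φ b) hp1
  have hlq : l ^ p ^ e = z * l := by
    rw [geom p hp.one_lt.le e, pow_succ, pow_mul, hl, ← map_neg φ, ← map_pow, hb3, hφz]
  have hlj : ∀ j : ℕ, l ^ (p ^ e) ^ j = z ^ j * l := by
    intro j
    induction j with
    | zero => simp
    | succ j ih =>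
      rw [pow_succ, pow_mul, ih, mul_pow, hlq, ← pow_mul, mul_comm j, pow_mul, hzq, pow_succ]
      ring
  obtain ⟨L, hL⟩ := descent (K := K) l (by
    rw [hcard, hlj, pow_mul, hzp.pow_eq_one, one_pow, one_mul])
  refine ⟨algebraMap (ZMod p) F (ζ ^ (m - 1)), L, W.attach.image g, ?_, ?_, ?_⟩
  · exact (_root_.map_ne_zero _).2 hc0
  · rw [Finset.card_image_of_injective, Finset.card_attach, hW1]
    intro y1 y2 h
    apply Subtype.ext
    rw [← hg y1, ← hg y2, h]
  · intro x hx y hy hxy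
    have hTx : (T ^ m) (algebraMap K (AlgebraicClosure K) x) = ζ ^ (m - 1) • algebraMap K (AlgebraicClosure K) x := by
      obtain ⟨w, -, rfl⟩ := Finset.mem_image.1 hx
      rw [hg]
      exact hW2 _ w.2
    have hTy : (T ^ m) (algebraMap K (AlgebraicClosure K) y) = ζ ^ (m - 1) • algebraMap K (AlgebraicClosure K) y := by
      obtain ⟨w, -, rfl⟩ := Finset.mem_image.1 hy
      rw [hg]
      exact hW2 _ w.2
    set δ : AlgebraicClosure K := algebraMap K (AlgebraicClosure K) (x - y) with hδ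
    have hTδ : (T ^ m) δ = ζ ^ (m - 1) • δ := by
      rw [hδ, map_sub, map_sub, hTx, hTy, smul_sub]
    have hδ0 : δ ≠ 0 := by
      rw [hδ]
      exact (_root_.map_ne_zero _).2 (sub_ne_zero.2 hxy)
    apply φ.injective
    rw [hφz, hφ, RingHom.comp_apply, FiniteField.algebraMap_norm_eq_prod_pow, hK, hF, map_prod]
    have h1 : ∀ i ∈ Finset.range ((p - 1) * m), algebraMap K (AlgebraicClosure K) ((x - y - L) ^ (p ^ e) ^ i) =
        (T ^ i) δ - z ^ i * l := by
      intro i _
      rw [map_pow, map_sub, ← hδ, hL, ← pow_mul, sub_pow_char_pow, pow_mul,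
        pow_iter m e _ (φ b) P hP hPm hPe hPM hβ T hT δ hTδ, hlj]
    rw [Finset.prod_congr rfl h1, prod_norm (p - 1) m hp1 (by omega) z hzp (φ b) l hl (fun i => (T ^ i) δ), map_pow]
    · change (T ^ 0) δ ≠ 0
      rw [pow_zero, Module.End.one_apply]
      exact hδ0
    · intro i
      change (T ^ (i + 1)) δ = ((T ^ i) δ) ^ (p - 1 + 1) + φ b * (T ^ i) δ
      rw [Nat.sub_add_cancel hp.one_lt.le, pow_succ', Module.End.mul_apply, hT]
    · intro i
      change (T ^ (i + m)) δ = z ^ (m - 1) * (T ^ i) δ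
      rw [pow_add, Module.End.mul_apply, hTδ, map_smul, Algebra.smul_def, map_pow]

end Pool.Agent.Lib.NGP
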